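import Pool.Agent.MP_a59382_lc.G2.Defs

/-! Row CMP: components in the basis of powers of `t`, over a perfect constant field. -/

namespace Pool.Agent.G2F

open Pool.Agent.MP_a59382_lc Pool.Agent.MP_a59382_lc.H11 Polynomial IsDedekindDomain WithZero
open scoped WithZero

theorem cmp_row (hS : P55.SPAN_s) : CMP_s := by
  intro p k K _ _ _ _ _ _ _ _ _ _ _ _ n
  classical
  have hpp : p.Prime := Fact.out
  have := oinf_finite k K
  have : ExpChar k p := ExpChar.prime hpp
  have : ExpChar (RatFunc k) p := expChar_of_injective_algebraMap (algebraMap k _).injective p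
  have : ExpChar K p := expChar_of_injective_algebraMap (algebraMap (RatFunc k) K).injective p
  have hne : p ^ n ≠ 0 := pow_ne_zero _ hpp.ne_zero
  have haddK : ∀ x y : K, (x + y) ^ p ^ n = x ^ p ^ n + y ^ p ^ n := fun x y =>
    add_pow_expChar_pow x y p _
  obtain ⟨hpoly, hrat⟩ := hS p k n
  let b := Module.finBasis (RatFunc k) K
  have hspan : ∀ y : K, ∃ c : Fin (p ^ n) → K, y = cs _ (algebraMap k[X] K X) c := by
    intro y
    obtain ⟨a, ha⟩ := (Submodule.mem_span_range_iff_exists_fun (RatFunc k)).1
      (Field.span_map_pow_expChar_pow_eq_top_of_isSeparable p n b.span_eq ▸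
        Submodule.mem_top : y ∈ Submodule.span (RatFunc k) (Set.range (b · ^ p ^ n)))
    choose c hc using fun j => hrat (a j)
    refine ⟨fun d => ∑ j, algebraMap (RatFunc k) K (c j d) * b j, ?_⟩
    rw [← map_X, cs_basis _ hne haddK, ← ha]
    refine Finset.sum_congr rfl fun j _ => ?_
    rw [Algebra.smul_def, hc j]
  have hind : ∀ c : Fin (p ^ n) → K, cs _ (algebraMap k[X] K X) c = 0 → c = 0 := by
    intro c h
    have e : c = fun d => ∑ j, algebraMap (RatFunc k) K (b.repr (c d) j) * b j := by
      funext d
      conv_lhs => rw [← b.sum_repr (c d)]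
      simp only [Algebra.smul_def]
    rw [e, ← map_X, cs_basis _ hne haddK] at h
    have h1 := Fintype.linearIndependent_iff.1
      (b.linearIndependent.map_pow_expChar_pow_of_isSeparable p n)
      (fun j => cs _ RatFunc.X fun d => b.repr (c d) j)
      (by simpa only [Algebra.smul_def] using h)
    funext d
    rw [e]
    refine Finset.sum_eq_zero fun j _ => ?_
    have := congrFun (indep_of_val (winf k) (winf_X k) _ (h1 j)) d
    simp only [Pi.zero_apply] at this
    rw [this, map_zero, zero_mul]
  refine ⟨hspan, hind, ?_⟩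
  obtain ⟨γ, hγ, h⟩ := local_comp (O := FunctionField.ringOfIntegers k K) (R := k[X]) hne
    haddK hspan hind fun a => by
      obtain ⟨h, e⟩ := hpoly a
      have e1 := congrArg (algebraMap (RatFunc k) K) e
      rw [cs_map, map_X, ← IsScalarTower.algebraMap_apply] at e1
      simp only [← IsScalarTower.algebraMap_apply] at e1
      exact ⟨fun d => algebraMap k[X] _ (h d), e1⟩
  obtain ⟨γ', hγ', h'⟩ := local_comp (O := Oinf k K) (R := Rinf k) hne
    haddK hspan hind fun a => by
      obtain ⟨c, hc⟩ := hrat a.1
      have h1 := comp_le_one (winf k) (winf_X k) c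
        (hc ▸ (Valuation.mem_valuationSubring_iff _ _).1 a.2)
      refine ⟨fun d => algebraMap (Rinf k) _
        ⟨c d, (Valuation.mem_valuationSubring_iff _ _).2 (h1 d)⟩, ?_⟩
      have := congrArg (algebraMap (RatFunc k) K) hc
      rw [cs_map, map_X] at this
      exact this
  refine ⟨Sum.elim γ γ', finite_sum hγ hγ', fun i => ?_⟩
  cases i with
  | inl v => exact h v
  | inr v => exact h' v

end Pool.Agent.G2F
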