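import Pool.Agent.MP_a59382_lc.G2.Defs

namespace Pool.Agent.G2F

open Pool.Agent.MP_a59382_lc Pool.Agent.MP_a59382_lc.H11 Polynomial IsDedekindDomain WithZero
open scoped WithZero

theorem cst_root (p : ℕ) (k K : Type) [Field k] [Fact p.Prime] [CharP k p] [PerfectField k]
    [Field K] [Algebra k K] (y : K) (hy : IsAlgebraic k y) : ∃ z : K, y = z ^ p := by
  have h1 : PerfectField (algebraicClosure k K) :=
    Algebra.IsAlgebraic.perfectField k (L := algebraicClosure k K)
  have h2 : CharP (algebraicClosure k K) p :=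
    charP_of_injective_algebraMap (algebraMap k (algebraicClosure k K)).injective p
  obtain ⟨z, hz⟩ := surjective_frobenius (algebraicClosure k K) p
    ⟨y, mem_algebraicClosure_iff.2 hy⟩
  refine ⟨z, ?_⟩
  have h3 := congrArg Subtype.val hz
  rw [frobenius_def] at h3
  exact h3.symm

theorem cst_row : CST_s := by
  intro p k K _ _ _ _ _ _ _ _ _ _ _ _ y hy
  have h1 : IsIntegral k[X] y := by
    obtain ⟨o, ho⟩ := HeightOneSpectrum.mem_integers_of_valuation_le_one
      (R := FunctionField.ringOfIntegers k K) K y fun v => hy (Sum.inl v)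
    rw [← ho]
    exact o.2
  have h2 : IsIntegral (Rinf k) y := by
    obtain ⟨o, ho⟩ := HeightOneSpectrum.mem_integers_of_valuation_le_one
      (R := Oinf k K) K y fun v => hy (Sum.inr v)
    rw [← ho]
    exact o.2
  have e1 := minpoly.isIntegrallyClosed_eq_field_fractions' (RatFunc k) h1
  have e2 := minpoly.isIntegrallyClosed_eq_field_fractions' (RatFunc k) h2
  have hc : ∀ i, (minpoly k[X] y).coeff i ∈ Set.range (C : k →+* k[X]) := by
    intro i
    have e := congrArg (fun f : (RatFunc k)[X] => f.coeff i) (e1.symm.trans e2)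
    simp only [coeff_map] at e
    have hle : winf k (algebraMap k[X] (RatFunc k) ((minpoly k[X] y).coeff i)) ≤ 1 := by
      rw [e]
      exact (Valuation.mem_valuationSubring_iff _ _).1 ((minpoly (Rinf k) y).coeff i).2
    by_cases h0 : (minpoly k[X] y).coeff i = 0
    · exact ⟨0, by rw [h0, map_zero]⟩
    · rw [winf_poly k h0, ← exp_zero, exp_le_exp] at hle
      exact ⟨_, (eq_C_of_natDegree_eq_zero (by omega)).symm⟩
  obtain ⟨g, hg⟩ := (mem_lifts _).1 ((lifts_iff_coeff_lifts _).2 hc)
  let _ : Algebra k K := ((algebraMap k[X] K).comp C).toAlgebra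
  refine cst_root p k K y ⟨g, ?_, ?_⟩
  · rintro rfl
    exact minpoly.ne_zero h1 (by rw [← hg, Polynomial.map_zero])
  · have h3 := minpoly.aeval k[X] y
    rw [← hg, aeval_def, eval₂_map] at h3
    exact h3

end Pool.Agent.G2F
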