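import Pool.Agent.MP_a59382_lc.P55.Defs

/-! Statements of the rows of campaign h2g: function fields of curves over perfect fields. -/

namespace Pool.Agent.G2F

open Pool.Agent.MP_a59382_lc Pool.Agent.MP_a59382_lc.H11 Polynomial IsDedekindDomain WithZero
open Pool.Agent.MP_a59382_lc.H18 (In Sm Kit)
open scoped WithZero

noncomputable section

/-- The family of all places; the zeros and poles of `t` may be ramified. -/
structure Sz {K : Type} [Field K] (q : ℕ) (t : K) {ι : Type} (val : ι → Valuation K ℤᵐ⁰) :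
    Prop where
  two_le : 2 ≤ q
  frob : ∀ (k : ℕ) (x y : K), (x + y) ^ q ^ k = x ^ q ^ k + y ^ q ^ k
  supp : ∀ y : K, y ≠ 0 → {i | val i y ≠ 1}.Finite
  span : ∀ (Q k : ℕ), Q = q ^ k → ∀ y : K, ∃ c : Fin Q → K, y = cs Q t c
  indep : ∀ (Q k : ℕ), Q = q ^ k → ∀ c : Fin Q → K, cs Q t c = 0 → c = 0
  comp : ∀ (Q k : ℕ), Q = q ^ k → ∃ γ : ι → ℕ, {i | γ i ≠ 0}.Finite ∧
    ∀ (i : ι) (m : ℤ) (c : Fin Q → K), val i (cs Q t c) ≤ exp ((Q : ℤ) * m) →
      ∀ d, val i (c d) ≤ exp (m + γ i)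
  low : ∀ A : ι → ℕ, {i | A i ≠ 0}.Finite → ∃ B : ℕ, ∀ g : K, (∀ i, val i g ≤ exp (A i : ℤ)) →
    g ≠ 0 → ∀ i, exp (-(B : ℤ)) ≤ val i g
  cst : ∀ y : K, (∀ i, val i y ≤ 1) → ∃ z : K, y = z ^ q
  zer : ∃ i, val i t < 1
  pol : ∃ i, 1 < val i t

def POW_s : Prop := ∀ (K : Type) [Field K] (q : ℕ) (t : K) (ι : Type)
  (val : ι → Valuation K ℤᵐ⁰), Sz q t val → Dio1 fun x : K => ∃ n, x = t ^ q ^ n

def KIT_s : Prop := ∀ (F K : Type) [Field F] [Finite F] [Field K] (φ : F[X] →+* K) (t : K) (ι : Type)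
  (val : ι → Valuation K ℤᵐ⁰), Sz (Nat.card F) t val → φ X = t → ∃ O L, Kit φ val t O L

def FR_s : Prop := ∀ (F K : Type) [Field F] [Finite F] [Field K] (φ : F[X] →+* K) (t : K) (ι : Type)
  (val : ι → Valuation K ℤᵐ⁰), Sz (Nat.card F) t val → φ X = t → ∀ O L, Kit φ val t O L →
    ∃ Φ : K → K → K → Prop, (H18.Dio K fun x : K × K × K => Φ x.1 x.2.1 x.2.2) ∧
      (∀ T x h, Φ T x h → ∃ n, T = t ^ Nat.card F ^ n ∧ h = x ^ Nat.card F ^ n) ∧
      ∀ a n, Φ (t ^ Nat.card F ^ n) (φ a) (φ a ^ Nat.card F ^ n)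

/-- One level of the range test: the element is a polynomial in `t` with constant coefficients
fixed by the `n`-th power of Frobenius. -/
def LEV_s : Prop := ∀ (K : Type) [Field K] (q : ℕ) (t : K) (ι : Type)
  (val : ι → Valuation K ℤᵐ⁰), Sz q t val → ∃ c : ℕ, ∀ (n : ℕ) (x s : K), In val t x → In val t s →
    x ^ q ^ n - x = s * (t ^ q ^ n - t) → Sm val t ((x * t) ^ q ^ c) (t ^ q ^ n) →
    Sm val t (t ^ q ^ c) (t ^ q ^ n) →
      ∃ (J : Type) (_ : Fintype J) (e : J → ℕ) (w : J → K), Function.Injective e ∧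
        (∀ j i, val i (w j) ≤ 1) ∧ (∀ j, w j ^ q ^ n = w j) ∧ x = ∑ j, w j * t ^ e j

/-- Two expansions with constant coefficients agree. -/
def TWO_s : Prop := ∀ (F K : Type) [Field F] [Finite F] [Field K] (φ : F[X] →+* K) (t : K) (ι : Type)
  (val : ι → Valuation K ℤᵐ⁰), Sz (Nat.card F) t val → φ X = t →
    ∀ (n : ℕ) (J J' : Type) [Fintype J] [Fintype J'] (e : J → ℕ) (e' : J' → ℕ) (w : J → K)
      (w' : J' → K), Function.Injective e → Function.Injective e' → (∀ j i, val i (w j) ≤ 1) →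
      (∀ j i, val i (w' j) ≤ 1) → (∀ j, w j ^ Nat.card F ^ n = w j) →
      (∀ j, w' j ^ Nat.card F ^ (n + 1) = w' j) → ∑ j, w j * t ^ e j = ∑ j, w' j * t ^ e' j →
        ∑ j, w j * t ^ e j ∈ φ.range

def RNG_s : Prop := ∀ (F K : Type) [Field F] [Finite F] [Field K] (φ : F[X] →+* K) (t : K) (ι : Type)
  (val : ι → Valuation K ℤᵐ⁰), Sz (Nat.card F) t val → φ X = t →
    H18.Dio K fun x : K => x ∈ φ.range

section

variable (k K : Type) [Field k] [Field K] [Algebra k[X] K] [Algebra (RatFunc k) K]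
  [IsScalarTower k[X] (RatFunc k) K] [FunctionField k K] [Algebra.IsSeparable (RatFunc k) K]
  [IsDedekindDomain (Oinf k K)] [IsFractionRing (Oinf k K) K]

/-- All places of `K`. -/
def vz : HeightOneSpectrum (FunctionField.ringOfIntegers k K) ⊕ HeightOneSpectrum (Oinf k K) →
    Valuation K ℤᵐ⁰ := Sum.elim (fun v => v.valuation K) fun v => v.valuation K

end

/-- The norm of an element with bounded poles. -/
def NRM_s : Prop := ∀ (k K : Type) [Field k] [Field K] [Algebra k[X] K] [Algebra (RatFunc k) K]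
  [IsScalarTower k[X] (RatFunc k) K] [FunctionField k K] [Algebra.IsSeparable (RatFunc k) K]
  [IsDedekindDomain (Oinf k K)] [IsFractionRing (Oinf k K) K]
  (A : HeightOneSpectrum (FunctionField.ringOfIntegers k K) ⊕ HeightOneSpectrum (Oinf k K) → ℕ),
  {i | A i ≠ 0}.Finite → ∃ M B : ℕ, ∀ g : K, (∀ i, vz k K i g ≤ exp (A i : ℤ)) → g ≠ 0 →
    ∃ a : k[X], a ≠ 0 ∧ a.natDegree ≤ M ∧
      ∀ i, vz k K i (algebraMap k[X] K a) ≤ vz k K i g * exp (B : ℤ)

/-- Elements without poles are `p`-th powers. -/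
def CST_s : Prop := ∀ (p : ℕ) (k K : Type) [Field k] [Fact p.Prime] [CharP k p] [PerfectField k]
  [Field K] [Algebra k[X] K] [Algebra (RatFunc k) K]
  [IsScalarTower k[X] (RatFunc k) K] [FunctionField k K] [Algebra.IsSeparable (RatFunc k) K]
  [IsDedekindDomain (Oinf k K)] [IsFractionRing (Oinf k K) K] (y : K),
  (∀ i, vz k K i y ≤ 1) → ∃ z : K, y = z ^ p

/-- Components in the basis of powers of `t`. -/
def CMP_s : Prop := ∀ (p : ℕ) (k K : Type) [Field k] [Fact p.Prime] [CharP k p] [PerfectField k]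
  [Field K] [Algebra k[X] K] [Algebra (RatFunc k) K]
  [IsScalarTower k[X] (RatFunc k) K] [FunctionField k K] [Algebra.IsSeparable (RatFunc k) K]
  [IsDedekindDomain (Oinf k K)] [IsFractionRing (Oinf k K) K] (n : ℕ),
  (∀ y : K, ∃ c : Fin (p ^ n) → K, y = cs (p ^ n) (algebraMap k[X] K X) c) ∧
  (∀ c : Fin (p ^ n) → K, cs (p ^ n) (algebraMap k[X] K X) c = 0 → c = 0) ∧
  ∃ γ : HeightOneSpectrum (FunctionField.ringOfIntegers k K) ⊕ HeightOneSpectrum (Oinf k K) → ℕ,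
    {i | γ i ≠ 0}.Finite ∧ ∀ i (m : ℤ) (c : Fin (p ^ n) → K),
      vz k K i (cs (p ^ n) (algebraMap k[X] K X) c) ≤ exp (((p ^ n : ℕ) : ℤ) * m) →
        ∀ d, vz k K i (c d) ≤ exp (m + γ i)

def LOW_s : Prop := ∀ (p : ℕ) (k K : Type) [Field k] [Fact p.Prime] [CharP k p] [PerfectField k]
  [Field K] [Algebra k[X] K] [Algebra (RatFunc k) K]
  [IsScalarTower k[X] (RatFunc k) K] [FunctionField k K] [Algebra.IsSeparable (RatFunc k) K]
  [IsDedekindDomain (Oinf k K)] [IsFractionRing (Oinf k K) K]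
  (A : HeightOneSpectrum (FunctionField.ringOfIntegers k K) ⊕ HeightOneSpectrum (Oinf k K) → ℕ),
  {i | A i ≠ 0}.Finite → ∃ B : ℕ, ∀ g : K, (∀ i, vz k K i g ≤ exp (A i : ℤ)) → g ≠ 0 →
    ∀ i, exp (-(B : ℤ)) ≤ vz k K i g

/-- `t` has a zero and a pole. -/
def ZP_s : Prop := ∀ (p : ℕ) (k K : Type) [Field k] [Fact p.Prime] [CharP k p] [PerfectField k]
  [Field K] [Algebra k[X] K] [Algebra (RatFunc k) K]
  [IsScalarTower k[X] (RatFunc k) K] [FunctionField k K] [Algebra.IsSeparable (RatFunc k) K]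
  [IsDedekindDomain (Oinf k K)] [IsFractionRing (Oinf k K) K],
  (∃ i, vz k K i (algebraMap k[X] K X) < 1) ∧ ∃ i, 1 < vz k K i (algebraMap k[X] K X)

def SYS_s : Prop := ∀ (p : ℕ) (k K : Type) [Field k] [Fact p.Prime] [CharP k p] [PerfectField k]
  [Field K] [Algebra k[X] K] [Algebra (RatFunc k) K]
  [IsScalarTower k[X] (RatFunc k) K] [FunctionField k K] [Algebra.IsSeparable (RatFunc k) K]
  [IsDedekindDomain (Oinf k K)] [IsFractionRing (Oinf k K) K],
  Sz p (algebraMap k[X] K X) (vz k K)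

def TOP_s : Prop := ∀ (p : ℕ) (k K : Type) [Field k] [Fact p.Prime] [CharP k p] [PerfectField k]
  [Field K] [Algebra k[X] K] [Algebra (RatFunc k) K]
  [IsScalarTower k[X] (RatFunc k) K] [FunctionField k K] [Algebra.IsSeparable (RatFunc k) K]
  (S : ℕ → Prop), REPred S → ∃ (n : ℕ) (f : MvPolynomial (Fin 1 ⊕ Fin n) K),
    ∀ a : K, (∃ z : Fin n → K, MvPolynomial.eval (Sum.elim ![a] z) f = 0) ↔
      ∃ j, S j ∧ a = algebraMap k[X] K X ^ j

end

end Pool.Agent.G2F
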