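import Pool.Agent.MP_a59382_lc.G2.Defs

/-! Base change to an algebraically closed constant field. -/

namespace Pool.Agent.G2F

open Pool.Agent.MP_a59382_lc Pool.Agent.MP_a59382_lc.H11 Polynomial IsDedekindDomain WithZero
open scoped WithZero IntermediateField

theorem ext_field (F L K : Type) [Field F] [Field L] [Field K] (g : F →+* L) [Algebra F K]
    [FiniteDimensional F K] [Algebra.IsSeparable F K] :
    ∃ (K' : Type) (_ : Field K') (_ : Algebra L K') (f : K →+* K'), FiniteDimensional L K' ∧
      Algebra.IsSeparable L K' ∧ ∀ x : F, f (algebraMap F K x) = algebraMap L K' (g x) := by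
  let _ : Algebra F L := g.toAlgebra
  let ι : K →ₐ[F] AlgebraicClosure L := IsAlgClosed.lift
  obtain ⟨α, hα⟩ := Field.exists_primitive_element F K
  have hs : IsSeparable L (ι α) :=
    IsSeparable.tower_top L ((Algebra.IsSeparable.isSeparable F α).map ι ι.injective)
  have hm : ∀ x : K, ι x ∈ L⟮ι α⟯ := by
    intro x
    have h1 : F⟮α⟯ ≤ (L⟮ι α⟯.restrictScalars F).comap ι := by
      rw [IntermediateField.adjoin_simple_le_iff]
      exact IntermediateField.mem_adjoin_simple_self L (ι α)
    exact h1 (hα ▸ IntermediateField.mem_top)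
  refine ⟨L⟮ι α⟯, inferInstance, inferInstance, ι.toRingHom.codRestrict L⟮ι α⟯ hm,
    IntermediateField.adjoin.finiteDimensional hs.isIntegral,
    (IntermediateField.isSeparable_adjoin_simple_iff_isSeparable L _).2 hs, fun x => ?_⟩
  refine Subtype.ext ?_
  exact (ι.commutes x).trans (IsScalarTower.algebraMap_apply F L (AlgebraicClosure L) x)

/-- Every function field embeds, compatibly with `t`, in one with perfect constants. -/
def EXT_s : Prop := ∀ (p : ℕ) (k K : Type) [Field k] [Fact p.Prime] [CharP k p]
  [Field K] [Algebra k[X] K] [Algebra (RatFunc k) K]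
  [IsScalarTower k[X] (RatFunc k) K] [FunctionField k K] [Algebra.IsSeparable (RatFunc k) K],
  ∃ (K' : Type) (_ : Field K') (ι : Type) (val : ι → Valuation K' ℤᵐ⁰) (f : K →+* K'),
    Sz p (f (algebraMap k[X] K X)) val

theorem ext_row (hS : SYS_s) : EXT_s := by
  intro p k K _ _ _ _ _ _ _ _ _
  let k' := AlgebraicClosure k
  have hi : Function.Injective (mapRingHom (algebraMap k k')) :=
    map_injective _ (algebraMap k k').injective
  have hle : nonZeroDivisors k[X] ≤ (nonZeroDivisors k'[X]).comap (mapRingHom (algebraMap k k')) :=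
    nonZeroDivisors_le_comap_nonZeroDivisors_of_injective _ hi
  obtain ⟨K', _, _, f, h1, h2, h3⟩ := ext_field (RatFunc k) (RatFunc k') K
    (RatFunc.mapRingHom (mapRingHom (algebraMap k k')) hle)
  let _ : Algebra k'[X] K' :=
    ((algebraMap (RatFunc k') K').comp (algebraMap k'[X] (RatFunc k'))).toAlgebra
  have : IsScalarTower k'[X] (RatFunc k') K' := IsScalarTower.of_algebraMap_eq' rfl
  have : FunctionField k' K' := h1
  have := oinf_dedekind k' K'
  have := oinf_frac k' K'
  refine ⟨K', inferInstance, _, vz k' K', f, ?_⟩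
  have e1 : RatFunc.mapRingHom (mapRingHom (algebraMap k k')) hle RatFunc.X = RatFunc.X := by
    have h4 := RatFunc.map_apply_div (mapRingHom (algebraMap k k')) hle X 1
    simpa [RatFunc.coe_mapRingHom_eq_coe_map] using h4
  have e2 : f (algebraMap k[X] K X) = algebraMap k'[X] K' X := by
    rw [← H11.map_X k K, h3, e1, H11.map_X k' K']
  rw [e2]
  exact hS p k' K'

end Pool.Agent.G2F
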