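import Pool.Agent.Results.MP_a59382_lc.HilbertTenthCharP

/-! The statement for `k(t)` (the earlier form of the hand-in, without perfectness) follows from
the hand-in. -/

namespace Pool.Agent.G2W

theorem ratFunc_case (p : ℕ) (k : Type) [Field k] [Fact p.Prime] [CharP k p]
    (S : ℕ → Prop) (h : REPred S) : ∃ (n : ℕ) (f : MvPolynomial (Fin 1 ⊕ Fin n) (RatFunc k)),
      ∀ a : RatFunc k, (∃ z : Fin n → RatFunc k, MvPolynomial.eval (Sum.elim ![a] z) f = 0) ↔
        ∃ j : ℕ, S j ∧ a = RatFunc.X ^ j :=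
  Pool.Agent.Results.MP_a59382_lc.HilbertTenthCharP.result p k (RatFunc k)
    (RatFunc.adjoin_X (K := k) ▸ IntermediateField.fg_adjoin_of_finite (Set.finite_singleton _))
    RatFunc.X RatFunc.transcendental_X S h

end Pool.Agent.G2W
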