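import Pool.Agent.MP_a59382_lc.G2.Defs

/-! Row LEV: one level of the range test. -/

namespace Pool.Agent.G2F

open Pool.Agent.MP_a59382_lc Pool.Agent.MP_a59382_lc.H11 Polynomial WithZero
open Pool.Agent.MP_a59382_lc.H18 (In Sm Kit)
open scoped WithZero

namespace Sz

variable {K : Type} [Field K] {q : ℕ} {t : K} {ι : Type} {val : ι → Valuation K ℤᵐ⁰}
  (S : Sz q t val)
include S

theorem lev_pow_pos (k : ℕ) : 0 < q ^ k := Nat.pow_pos (by have := S.two_le; omega)

theorem lev_frob_sub (k : ℕ) (x y : K) : (x - y) ^ q ^ k = x ^ q ^ k - y ^ q ^ k := by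
  have := S.frob k (x - y) y
  rw [sub_add_cancel] at this
  rw [this, add_sub_cancel_right]

theorem lev_frob_neg (k : ℕ) (x : K) : (-x) ^ q ^ k = -x ^ q ^ k := by
  have := S.lev_frob_sub k 0 x
  rwa [zero_sub, zero_pow (S.lev_pow_pos k).ne', zero_sub] at this

theorem lev_cs_add {Q k : ℕ} (hQ : Q = q ^ k) (c c' : Fin Q → K) :
    cs Q t (c + c') = cs Q t c + cs Q t c' :=
  cs_add' t (fun x y => hQ ▸ S.frob k x y) c c'

theorem lev_cs_inj {Q k : ℕ} (hQ : Q = q ^ k) {c c' : Fin Q → K} (h : cs Q t c = cs Q t c') :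
    c = c' := by
  have := S.lev_cs_add hQ (c - c') c'
  rw [sub_add_cancel, h, right_eq_add] at this
  exact sub_eq_zero.1 (S.indep Q k hQ _ this)

theorem lev_not_pow (y : K) : t ≠ y ^ q := by
  intro h
  have h2 := S.two_le
  have e : cs q t (Pi.single ⟨1, by omega⟩ 1) = cs q t (Pi.single ⟨0, by omega⟩ y) := by
    rw [cs_single, cs_single]
    simpa using h
  have := congrFun (S.lev_cs_inj (pow_one q).symm e) ⟨1, by omega⟩
  simp at this

theorem lev_t_ne : t ≠ 0 := by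
  have := S.lev_not_pow 0
  rwa [zero_pow (by have := S.two_le; omega)] at this

theorem lev_theta_ne {c : ℕ} (hc : 0 < c) : t ^ q ^ c - t ≠ 0 := by
  obtain ⟨c, rfl⟩ : ∃ c', c = c' + 1 := ⟨c - 1, by omega⟩
  intro h
  apply S.lev_not_pow (t ^ q ^ c)
  rw [← pow_mul, ← pow_succ]
  exact (sub_eq_zero.1 h).symm

theorem lev_theta_low : ∃ N : ℕ, ∀ (i : ι) (c : ℕ), 0 < c →
    exp (-(N : ℤ)) ≤ val i (t ^ q ^ c - t) := by
  obtain ⟨γ, hγ, hc⟩ := S.comp q 1 (pow_one q).symm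
  obtain ⟨G, hG⟩ := bdd_of_supp hγ
  have h2 := S.two_le
  refine ⟨q * (G + 1), fun i c h0 => ?_⟩
  obtain ⟨c, rfl⟩ : ∃ c', c = c' + 1 := ⟨c - 1, by omega⟩
  by_contra hlt
  have e : t ^ q ^ (c + 1) - t =
      cs q t (Pi.single ⟨0, by omega⟩ (t ^ q ^ c) + Pi.single ⟨1, by omega⟩ (-1)) := by
    have := S.lev_frob_neg 1 1
    rw [pow_one] at this
    rw [S.lev_cs_add (pow_one q).symm, cs_single, cs_single, this, ← pow_mul, ← pow_succ]
    simp [sub_eq_add_neg]
  have h3 := hc i (-(G + 1)) _ (by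
    rw [← e]
    refine exp_mono (not_le.1 hlt).le ?_
    push_cast
    linarith) ⟨1, by omega⟩
  have h4 : (⟨1, by omega⟩ : Fin q) ≠ ⟨0, by omega⟩ := by simp
  rw [Pi.add_apply, Pi.single_eq_of_ne h4, Pi.single_eq_same, zero_add, Valuation.map_neg,
    map_one, ← exp_zero, exp_le_exp] at h3
  have := hG i
  omega

theorem lev_tp_lt {m n : ℕ} (h : Sm val t (t ^ m) (t ^ n)) : m < n := by
  obtain ⟨i, hi⟩ := S.pol
  have := h i hi
  rwa [map_pow, map_pow, pow_lt_pow_iff_right₀ hi] at this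

theorem lev_ex_exp_data : ∃ τ γ : ι → ℕ, {i | τ i + 2 * γ i ≠ 0}.Finite ∧
    (∀ i, val i t ≤ 1 → τ i = 0) ∧
    (∀ i, γ i = 0 → ∀ c, 0 < c → val i t ≤ 1 → exp (-1 : ℤ) ≤ val i (t ^ q ^ c - t)) ∧
    ∀ (k : ℕ) (x : K), In val t x → (∀ i, 1 < val i t → val i x ≤ val i (t ^ q ^ k)) →
      ∃ (J : Type) (_ : Fintype J) (e : J → ℕ) (v : J → K), Function.Injective e ∧
        (∀ j, e j < q ^ k) ∧ (∀ j i, val i (v j) ≤ exp ((τ i + 2 * γ i : ℕ) : ℤ)) ∧
        x = ∑ j, v j ^ q ^ k * t ^ e j := by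
  classical
  obtain ⟨γ, hγ, h⟩ := S.comp q 1 (pow_one q).symm
  have hq := S.two_le
  have : ∀ i, ∃ n : ℕ, (val i t ≤ 1 → n = 0) ∧ (1 < val i t → val i t = exp (n : ℤ)) := fun i => by
    rcases le_or_gt (val i t) 1 with h | h
    · exact ⟨0, fun _ => rfl, fun h' => absurd h h'.not_ge⟩
    · obtain ⟨n, -, e⟩ := ex_pole _ h
      exact ⟨n, fun h' => absurd h' h.not_ge, fun _ => e⟩
  choose τ h1 h2 using this
  have key : ∀ (k : ℕ) (x : K), (∀ i, val i x ≤ exp ((q ^ k * τ i + 2 * γ i : ℕ) : ℤ)) →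
      ∃ (J : Type) (_ : Fintype J) (e : J → ℕ) (v : J → K), Function.Injective e ∧
        (∀ j, e j < q ^ k) ∧ (∀ j i, val i (v j) ≤ exp ((τ i + 2 * γ i : ℕ) : ℤ)) ∧
        x = ∑ j, v j ^ q ^ k * t ^ e j := by
    intro k
    induction k with
    | zero =>
      intro x hx
      exact ⟨Unit, inferInstance, fun _ => 0, fun _ => x, fun _ _ _ => rfl, by simp,
        fun _ i => by simpa using hx i, by simp⟩
    | succ k ih =>
      intro x hx
      obtain ⟨c, rfl⟩ := S.span q 1 (pow_one q).symm x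
      choose J _ e v a1 a2 a3 a4 using fun d => ih (c d) fun i =>
        exp_mono (h i (q ^ k * τ i + γ i : ℕ) c (exp_mono (hx i) (by
          have : q ^ (k + 1) * τ i + 2 * γ i ≤ q * (q ^ k * τ i + γ i) := by
            rw [pow_succ']
            nlinarith
          exact_mod_cast this)) d) (by push_cast; omega)
      refine ⟨Σ d, J d, inferInstance, fun j => j.1 + q * e j.1 j.2, fun j => v j.1 j.2, ?_,
        fun j => ?_, fun j => a3 _ _, ?_⟩
      · rintro ⟨d, j⟩ ⟨d', j'⟩ h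
        have h3 := congrArg (· % q) h
        simp only [Nat.add_mul_mod_self_left, Nat.mod_eq_of_lt d.2, Nat.mod_eq_of_lt d'.2] at h3
        obtain rfl := Fin.ext h3
        obtain rfl := a1 d (Nat.eq_of_mul_eq_mul_left (by omega) (Nat.add_left_cancel h))
        rfl
      · have := j.1.2
        have : q * (e j.1 j.2 + 1) ≤ q * q ^ k := Nat.mul_le_mul_left _ (a2 _ _)
        rw [pow_succ']
        rw [Nat.mul_succ] at this
        beta_reduce
        omega
      · rw [cs, Fintype.sum_sigma]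
        refine Finset.sum_congr rfl fun d _ => ?_
        rw [a4 d, sum_pow' (by omega) (by simpa using S.frob 1), Finset.sum_mul]
        refine Finset.sum_congr rfl fun j _ => ?_
        rw [pow_succ, pow_mul]
        ring
  refine ⟨τ, γ, ((S.supp t S.lev_t_ne).union hγ).subset fun i hi => ?_, h1, fun i hi c hc ht => ?_,
    fun k x hx hx' => key k x fun i => ?_⟩
  · by_contra h
    simp only [Set.mem_union, Set.mem_ofPred_eq, not_or, not_not] at h
    simp [h1 i h.1.le, h.2] at hi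
  · obtain ⟨c, rfl⟩ := Nat.exists_eq_succ_of_ne_zero hc.ne'
    by_contra hlt
    have e : (t ^ q ^ (c + 1) - t) ^ (q - 1) =
        cs q t fun d => (t ^ q ^ c) ^ (q - 1 - d) := by
      refine mul_right_cancel₀ (S.lev_theta_ne c.succ_pos) ?_
      have := S.lev_frob_sub 1 (t ^ q ^ (c + 1)) t
      rw [pow_one] at this
      rw [← pow_succ, Nat.sub_add_cancel (by omega), this, ← neg_sub (t ^ q), ← neg_sub t,
        ← (Commute.all _ _).geom_sum₂_mul, mul_neg, cs, Finset.sum_range]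
      congr 2
      refine Finset.sum_congr rfl fun d _ => ?_
      rw [pow_succ, pow_mul]
      ring
    have h3 : val i (t ^ q ^ (c + 1) - t) ≤ exp (-2 : ℤ) := by
      obtain ⟨m, hm⟩ := ex_exp (val i) (S.lev_theta_ne c.succ_pos)
      rw [hm, exp_le_exp] at hlt ⊢
      omega
    have h4 := h i (-1) _ (e ▸ exp_mono (val_pow_le _ h3 _) (by omega)) ⟨q - 1, by omega⟩
    rw [Nat.sub_self, pow_zero, map_one, ← exp_zero, exp_le_exp] at h4
    omega
  · rcases le_or_gt (val i t) 1 with h | h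
    · exact (hx i h).trans (one_le_exp _)
    · exact exp_mono ((hx' i h).trans (val_pow_le _ (h2 i h).le _)) (by push_cast; omega)

theorem lev_bounds (A : ι → ℕ) (hA : {i | A i ≠ 0}.Finite) : ∃ B : ℕ, ∀ g : K,
    (∀ i, val i g ≤ exp (A i : ℤ)) → ∀ i,
      val i g ≤ exp (B : ℤ) ∧ (g ≠ 0 → exp (-(B : ℤ)) ≤ val i g) := by
  obtain ⟨B, hB⟩ := S.low A hA
  obtain ⟨C, hC⟩ := bdd_of_supp hA
  refine ⟨B + C, fun g hg i => ⟨exp_mono (hg i) ?_, fun h =>
    (exp_le_exp.2 (by omega)).trans (hB g hg h i)⟩⟩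
  have := hC i
  omega

theorem lev_main : ∃ c : ℕ, ∀ (n : ℕ) (x s : K), In val t x → In val t s →
    x ^ q ^ n - x = s * (t ^ q ^ n - t) → Sm val t ((x * t) ^ q ^ c) (t ^ q ^ n) →
    Sm val t (t ^ q ^ c) (t ^ q ^ n) →
      ∃ (J : Type) (_ : Fintype J) (e : J → ℕ) (w : J → K), Function.Injective e ∧
        (∀ j i, val i (w j) ≤ 1) ∧ (∀ j, w j ^ q ^ n = w j) ∧ x = ∑ j, w j * t ^ e j := by
  classical
  obtain ⟨τ, γ, g1, g2, g3, g4⟩ := S.lev_ex_exp_data
  obtain ⟨N₀, hN⟩ := S.lev_theta_low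
  have hq := S.two_le
  obtain ⟨B₁, b1⟩ := S.lev_bounds (fun i => τ i + 2 * γ i) g1
  choose c hc' using S.span (q ^ B₁) B₁ rfl
  obtain ⟨γ₂, g5, g6⟩ := S.comp (q ^ B₁) B₁ rfl
  obtain ⟨B₂, b2⟩ := S.lev_bounds (fun i => τ i + 2 * γ i + γ₂ i)
    ((g1.union g5).subset fun i hi => by
      by_contra h
      simp only [Set.mem_union, Set.mem_ofPred_eq, not_or, not_not] at h hi
      omega)
  have hb : ∀ y : K, (∀ i, val i y ≤ exp ((τ i + 2 * γ i : ℕ) : ℤ)) → ∀ d i,
      val i (c y d) ≤ exp ((τ i + 2 * γ i + γ₂ i : ℕ) : ℤ) := fun y hy d i => by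
    refine exp_mono (g6 i ((τ i + 2 * γ i : ℕ) : ℤ) (c y) ?_ d) (by push_cast; omega)
    rw [← hc' y]
    refine exp_mono (hy i) ?_
    exact_mod_cast Nat.le_mul_of_pos_left (τ i + 2 * γ i) (S.lev_pow_pos B₁)
  obtain ⟨B₃, b3⟩ := S.lev_bounds (fun i => γ i * (2 + N₀))
    (g1.subset fun i hi h => hi (by simp [show γ i = 0 by omega]))
  obtain ⟨j₀, hj⟩ : ∃ j₀, 2 * B₂ + B₁ + B₃ < q ^ j₀ := ⟨_, Nat.lt_pow_self hq⟩
  have hj' : q ^ j₀ ≤ q ^ (B₁ + j₀) := Nat.pow_le_pow_right (by omega) (by omega)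
  refine ⟨B₁ + j₀, fun n x s hx a3 a4 a5 a6 => ?_⟩
  have hlt := (Nat.pow_lt_pow_iff_right hq).1 (S.lev_tp_lt a6)
  obtain ⟨k, hk⟩ : ∃ k, q ^ n = q ^ k * q ^ (B₁ + j₀) :=
    ⟨n - (B₁ + j₀), by rw [← pow_add, Nat.sub_add_cancel hlt.le]⟩
  obtain ⟨J, _, e, v, e1, e2, e3, e4⟩ := g4 k x hx fun i hi => by
    have := a5 i hi
    rw [hk, pow_mul, map_pow, map_pow _ (t ^ _), map_mul] at this
    exact (le_mul_of_one_le_right' hi.le).trans (lt_of_pow_lt_pow_left₀ _ zero_le this).le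
  have hsum := fun k => sum_pow' (S.lev_pow_pos k).ne' (S.frob k) (Finset.univ : Finset J)
  have h1 : x ^ q ^ (B₁ + j₀) = ∑ j, v j ^ q ^ n * t ^ (q ^ (B₁ + j₀) * e j) := by
    rw [e4, hsum, hk]
    exact Finset.sum_congr rfl fun j _ => by ring
  have hθ := S.lev_theta_ne (c := n) (by omega)
  have h2 : ∑ j, v j * t ^ (q ^ (B₁ + j₀) * e j) = x ^ q ^ (B₁ + j₀) := by
    generalize hc₀ : q ^ (B₁ + j₀) = c₀ at *
    obtain ⟨y, hy⟩ : ∃ y, y = ∑ j, v j * t ^ (c₀ * e j) - x ^ c₀ := ⟨_, rfl⟩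
    rw [← sub_eq_zero, ← hy]
    have k1 : ∀ i, 1 < val i t → val i (y / (t ^ q ^ n - t)) ≤ exp ((B₁ : ℤ) - c₀) := by
      intro i hi
      obtain ⟨m, hm, em⟩ := ex_pole _ hi
      have e5 : ∀ l : ℕ, val i (t ^ l) = exp ((l : ℤ) * m) := fun l => by
        rw [map_pow, em, pow_exp]
      have k2 : val i (y * t ^ c₀) ≤ exp (B₁ + (q ^ n : ℕ) * m : ℤ) := by
        rw [hy, sub_mul, Finset.sum_mul, ← mul_pow]
        refine (val i).map_sub_le ((val i).map_sum_le fun j _ => ?_)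
          (exp_mono ((a5 i hi).le.trans (e5 _).le) (by omega))
        rw [mul_assoc, ← pow_add]
        refine exp_mono (val_mul_le _ (b1 _ (e3 j) i).1 (e5 _).le) ?_
        have : (c₀ * e j + c₀) * m ≤ q ^ n * m := by
          rw [hk, mul_comm _ c₀]
          exact Nat.mul_le_mul_right _ (Nat.mul_le_mul_left c₀ (e2 j))
        exact_mod_cast Nat.add_le_add_left this B₁
      rw [map_mul, e5, ← le_div_iff₀ (zero_lt_iff.2 exp_ne_zero), ← exp_sub] at k2
      rw [map_div₀, (val i).map_sub_eq_of_lt_left (by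
        rw [map_pow]
        exact lt_self_pow₀ hi (Nat.one_lt_pow (by omega) hq)), e5,
        div_le_iff₀ (zero_lt_iff.2 exp_ne_zero), ← exp_add]
      refine exp_mono k2 ?_
      have : (c₀ : ℤ) ≤ c₀ * m := by exact_mod_cast Nat.le_mul_of_pos_right _ hm
      omega
    have k2 : ∀ i, val i t ≤ 1 → val i (y / (t ^ q ^ n - t)) ≤ exp ((γ i * (2 + N₀) : ℕ) : ℤ) := by
      intro i hi
      have e5 : ∀ l : ℕ, val i (t ^ l) ≤ 1 := fun l => by
        rw [map_pow]
        exact pow_le_one₀ zero_le hi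
      have k3 : val i y ≤ exp ((2 * γ i : ℕ) : ℤ) := by
        rw [hy]
        refine (val i).map_sub_le ((val i).map_sum_le fun j _ => ?_) ?_
        · rw [map_mul]
          simpa [g2 i hi] using mul_le_mul' (e3 j i) (e5 _)
        · rw [map_pow]
          exact (pow_le_one₀ zero_le (hx i hi)).trans (one_le_exp _)
      rw [map_div₀, div_le_iff₀ (zero_lt_iff.2 ((val i).ne_zero_iff.2 hθ))]
      rcases Nat.eq_zero_or_pos (γ i) with h0 | h0
      · simp only [h0, mul_zero, zero_mul, Nat.cast_zero, exp_zero, one_mul] at k3 ⊢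
        refine (le_or_gt 1 _).elim k3.trans fun k4 =>
          (le_exp_neg_one _ ?_).trans (g3 i h0 n (by omega) hi)
        refine lt_of_pow_lt_pow_left₀ (q ^ n) zero_le ?_
        have : y ^ q ^ n = ∑ j, v j ^ q ^ n * ((t ^ q ^ n) ^ (c₀ * e j) - t ^ (c₀ * e j)) -
            ((x ^ q ^ n) ^ c₀ - x ^ c₀) := by
          simp only [mul_sub, Finset.sum_sub_distrib, ← h1]
          rw [hy, S.lev_frob_sub, hsum, sub_sub_sub_cancel_right, pow_right_comm x]
          congr 1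
          exact Finset.sum_congr rfl fun j _ => by ring
        rw [one_pow, ← map_pow, this]
        refine (val i).map_sub_lt ((val i).map_sum_lt one_ne_zero fun j _ => ?_)
          (H18.val_pow_sub _ ?_ (hx i hi) ?_ _)
        · rw [map_mul, map_pow, mul_comm]
          exact mul_lt_one_of_lt_of_le (H18.val_pow_sub _ (e5 _) hi k4 _)
            (pow_le_one₀ zero_le (by simpa [g2 i hi, h0] using e3 j i))
        · rw [map_pow]
          exact pow_le_one₀ zero_le (hx i hi)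
        · rw [a4, map_mul, mul_comm]
          exact mul_lt_one_of_lt_of_le k4 (a3 i hi)
      · refine k3.trans (le_trans ?_ (mul_le_mul_right (hN i n (by omega)) _))
        rw [← exp_add, exp_le_exp]
        have : N₀ ≤ γ i * N₀ := Nat.le_mul_of_pos_left _ h0
        have : 2 * γ i + N₀ ≤ γ i * (2 + N₀) := by nlinarith
        omega
    by_contra h0
    obtain ⟨i, hi⟩ := S.pol
    have := ((b3 _ (fun i => (le_or_gt _ _).elim (k2 i) fun hi =>
      exp_mono (k1 i hi) (by omega)) i).2 (div_ne_zero h0 hθ)).trans (k1 i hi)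
    rw [exp_le_exp] at this
    omega
  obtain ⟨i₀, hi₀⟩ := S.pol
  have h3 : ∀ j i, val i (v j) ≤ 1 := by
    intro j i
    have k1 : cs (q ^ B₁) t (fun d => ∑ j, c (v j) d * t ^ (q ^ j₀ * e j)) =
        cs (q ^ B₁) t (Pi.single ⟨0, S.lev_pow_pos _⟩ (x ^ q ^ j₀)) := by
      rw [cs_single, pow_zero, mul_one, ← pow_mul, ← pow_add, add_comm j₀, ← h2, cs]
      simp only [hsum, Finset.sum_mul]
      rw [Finset.sum_comm]
      refine Finset.sum_congr rfl fun j _ => ?_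
      conv_rhs => rw [hc' (v j), cs, Finset.sum_mul]
      exact Finset.sum_congr rfl fun d _ => by ring
    have k2 : c (v j) = Pi.single ⟨0, S.lev_pow_pos _⟩ (c (v j) ⟨0, S.lev_pow_pos _⟩) := by
      funext d
      rcases eq_or_ne d ⟨0, S.lev_pow_pos _⟩ with rfl | hd
      · simp
      have := congrFun (S.lev_cs_inj rfl k1) d
      rw [Pi.single_eq_of_ne hd] at this ⊢
      exact H18.separate _ hi₀ e1 (by omega) (fun j => b2 _
        (fun i => hb (v j) (e3 j) d i) i₀) this j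
    have k3 := (b1 _ (e3 j) i).1
    rw [hc' (v j), k2, cs_single, pow_zero, mul_one, map_pow] at k3 ⊢
    refine pow_le_one₀ zero_le (not_lt.1 fun hlt => ?_)
    obtain ⟨m, hm, em⟩ := ex_pole _ hlt
    rw [em, pow_exp, exp_le_exp] at k3
    have k4 : q ^ B₁ * m ≤ B₁ := by exact_mod_cast k3
    have := Nat.lt_pow_self (n := B₁) hq
    nlinarith
  have h4 : ∀ j, v j - v j ^ q ^ n = 0 := by
    refine H18.separate _ hi₀ e1 (s := q ^ (B₁ + j₀)) (by omega) (fun j => b2 _ (fun i =>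
      ((val i).map_sub_le (h3 j i) ?_).trans (one_le_exp _)) i₀) ?_
    · rw [map_pow]
      exact pow_le_one₀ zero_le (h3 j i)
    · simp only [sub_mul, Finset.sum_sub_distrib, h2, ← h1, sub_self]
  refine ⟨J, inferInstance, e, fun j => v j ^ q ^ k, e1, fun j i => ?_, fun j => ?_, e4⟩
  · rw [map_pow]
    exact pow_le_one₀ zero_le (h3 j i)
  · rw [pow_right_comm, ← sub_eq_zero.1 (h4 j)]

end Sz

theorem lev_row : LEV_s := fun _ _ _ _ _ _ S => S.lev_main

end Pool.Agent.G2F
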