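import Pool.Agent.MP_a59382_lc.G2.Defs

namespace Pool.Agent.G2F

open Pool.Agent.MP_a59382_lc Pool.Agent.MP_a59382_lc.H11 Polynomial IsDedekindDomain WithZero
open Pool.Agent.MP_a59382_lc.H18 (In Sm Kit)
open scoped WithZero

-- BEGIN
theorem low_root (p : ℕ) (k : Type) [Field k] [Fact p.Prime] [CharP k p] [PerfectField k]
    (n : ℕ) (r : k) : ∃ s : k, s ^ p ^ n = r := by
  have : PerfectRing k p := PerfectField.toPerfectRing p
  obtain ⟨s, hs⟩ := (bijective_iterateFrobenius k p n).2 r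
  exact ⟨s, by rw [← hs, iterateFrobenius_def]⟩

theorem low_const (p : ℕ) (k K : Type) [Field k] [hp : Fact p.Prime] [CharP k p] [PerfectField k]
    [Field K] (ψ : k →+* K) (v : Valuation K ℤᵐ⁰) (r : k) (hr : r ≠ 0) : v (ψ r) = 1 := by
  obtain ⟨m, hm⟩ := ex_exp v ((map_ne_zero ψ).2 hr)
  obtain ⟨s, hs⟩ := low_root p k m.natAbs r
  have hs0 : s ≠ 0 := by
    rintro rfl
    rw [zero_pow (pow_pos hp.out.pos _).ne'] at hs
    exact hr hs.symm
  obtain ⟨l, hl⟩ := ex_exp v ((map_ne_zero ψ).2 hs0)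
  have h1 : exp m = exp (((p ^ m.natAbs : ℕ) : ℤ) * l) := by
    rw [← hm, ← hs, map_pow, map_pow, hl, pow_exp]
  have h2 : m = ((p ^ m.natAbs : ℕ) : ℤ) * l := exp_injective h1
  have h3 : m.natAbs < p ^ m.natAbs := Nat.lt_pow_self hp.out.one_lt
  have h4 : m.natAbs = p ^ m.natAbs * l.natAbs := by
    conv_lhs => rw [h2]
    rw [Int.natAbs_mul, Int.natAbs_natCast]
  have h5 : l.natAbs = 0 := by
    by_contra h6
    have h7 : p ^ m.natAbs ≤ p ^ m.natAbs * l.natAbs := Nat.le_mul_of_pos_right _ (Nat.pos_of_ne_zero h6)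
    omega
  rw [h5, mul_zero, Int.natAbs_eq_zero] at h4
  rw [hm, h4, exp_zero]

theorem low_row (hCMP : CMP_s) (hNRM : NRM_s) : LOW_s := by
  intro p k K _ hp _ _ _ _ _ _ _ _ _ _ A hA
  obtain ⟨M, B, hMB⟩ := hNRM k K A hA
  obtain ⟨-, -, γ, hγ, hc⟩ := hCMP p k K M
  obtain ⟨G, hG⟩ := bdd_of_supp hγ
  have hM : M < p ^ M := Nat.lt_pow_self hp.out.one_lt
  refine ⟨p ^ M * (G + 1) + B, fun g hg hg0 i => ?_⟩
  obtain ⟨a, ha0, haM, ha⟩ := hMB g hg hg0
  choose s hs using fun d : ℕ => low_root p k M (a.coeff d)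
  have hcs : cs (p ^ M) (algebraMap k[X] K X) (fun d => algebraMap k[X] K (C (s d))) =
      algebraMap k[X] K a := by
    conv_rhs => rw [a.as_sum_range_C_mul_X_pow' (lt_of_le_of_lt haM hM)]
    rw [map_sum, cs, Finset.sum_range]
    refine Finset.sum_congr rfl fun d _ => ?_
    rw [map_mul, map_pow, ← map_pow, ← map_pow, hs]
  have h1 : exp (((p ^ M : ℕ) : ℤ) * (-(G + 1 : ℤ))) < vz k K i (algebraMap k[X] K a) := by
    by_contra h
    have h2 := hc i (-(G + 1 : ℤ)) _ (hcs ▸ not_lt.1 h) ⟨a.natDegree, lt_of_le_of_lt haM hM⟩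
    have h3 : s a.natDegree ≠ 0 := by
      intro h4
      have h5 := hs a.natDegree
      rw [h4, zero_pow (pow_pos hp.out.pos _).ne'] at h5
      exact leadingCoeff_ne_zero.2 ha0 h5.symm
    have h4 : vz k K i (algebraMap k[X] K (C (s a.natDegree))) = 1 :=
      low_const p k K ((algebraMap k[X] K).comp C) (vz k K i) _ h3
    have h5 : (1 : ℤᵐ⁰) ≤ exp (-(G + 1 : ℤ) + γ i) := h4 ▸ h2
    rw [← exp_zero, exp_le_exp] at h5
    have h6 := hG i
    omega
  obtain ⟨m, hm⟩ := ex_exp (vz k K i) hg0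
  have h2 := h1.trans_le (ha i)
  rw [hm, ← exp_add, exp_lt_exp] at h2
  rw [hm, exp_le_exp]
  push_cast at h2 ⊢
  linarith

end Pool.Agent.G2F

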