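import Pool.Agent.MP_a59382_lc.G2.Defs

namespace Pool.Agent.G2F

open Pool.Agent.MP_a59382_lc Pool.Agent.MP_a59382_lc.H11 Polynomial IsDedekindDomain WithZero
open scoped WithZero

/-- An integral element divides its norm. -/
theorem nrm_cof {R L K : Type} [CommRing R] [Field L] [Field K] [Algebra R L] [Algebra L K]
    [Algebra R K] [IsScalarTower R L K] [FiniteDimensional L K] [Algebra.IsSeparable L K] {z : K}
    (hz : IsIntegral R z) (h0 : z ≠ 0) :
    ∃ w, IsIntegral R w ∧ algebraMap L K (Algebra.norm L z) = z * w := by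
  classical
  refine ⟨z⁻¹ * algebraMap L K (Algebra.norm L z), ?_, (mul_inv_cancel_left₀ h0 _).symm⟩
  rw [← isIntegral_algebraMap_iff (algebraMap K (AlgebraicClosure K)).injective, map_mul,
    ← IsScalarTower.algebraMap_apply, Algebra.norm_eq_prod_embeddings L (AlgebraicClosure K) z,
    ← Finset.mul_prod_erase _ _ (Finset.mem_univ (IsScalarTower.toAlgHom L K (AlgebraicClosure K))),
    IsScalarTower.toAlgHom_apply, ← mul_assoc, ← map_mul, inv_mul_cancel₀ h0, map_one, one_mul]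
  exact IsIntegral.prod _ fun σ _ => hz.map (σ.restrictScalars R)

theorem nrm_den (F K : Type) [Field F] [Field K] [Algebra F[X] K] [Algebra (RatFunc F) K]
    [IsScalarTower F[X] (RatFunc F) K] [FunctionField F K] [Algebra.IsSeparable (RatFunc F) K]
    (A : HeightOneSpectrum (FunctionField.ringOfIntegers F K) → ℕ) (hA : {v | A v ≠ 0}.Finite) :
    ∃ δ : F[X], δ ≠ 0 ∧ ∀ v : HeightOneSpectrum (FunctionField.ringOfIntegers F K),
      v.valuation K (algebraMap F[X] K δ) ≤ exp (-(A v : ℤ)) := by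
  classical
  obtain ⟨B₀, hB₀⟩ := bdd_of_supp hA
  have hg : ∀ v : HeightOneSpectrum (FunctionField.ringOfIntegers F K), ∃ g : F[X], g ≠ 0 ∧
      v.valuation K (algebraMap F[X] K g) < 1 := by
    intro v
    have : Algebra.IsIntegral F[X] (FunctionField.ringOfIntegers F K) :=
      IsIntegralClosure.isIntegral_algebra F[X] K
    obtain ⟨a, ha, ha0⟩ := Submodule.exists_mem_ne_zero_of_ne_bot
      (Ideal.under_ne_bot F[X] v.ne_bot)
    exact ⟨a, ha0, (val_lt_one (K := K) v _).2 ha⟩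
  choose g hg0 hg using hg
  have hle : ∀ (v : HeightOneSpectrum (FunctionField.ringOfIntegers F K)) (a : F[X]),
      v.valuation K (algebraMap F[X] K a) ≤ 1 := fun v a =>
    val_le_one (K := K) v (algebraMap F[X] _ a)
  refine ⟨(∏ v ∈ hA.toFinset, g v) ^ B₀,
    pow_ne_zero _ (Finset.prod_ne_zero_iff.2 fun v _ => hg0 v), fun v => ?_⟩
  by_cases hv : A v = 0
  · simpa [hv] using hle v ((∏ v ∈ hA.toFinset, g v) ^ B₀)
  · have h1 : v.valuation K (algebraMap F[X] K (∏ v ∈ hA.toFinset, g v)) ≤ exp (-1 : ℤ) := by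
      rw [← Finset.mul_prod_erase _ _ (hA.mem_toFinset.2 hv), map_mul, map_mul]
      exact (mul_le_mul' (le_exp_neg_one _ (hg v)) (hle v _)).trans (mul_one _).le
    rw [map_pow]
    refine exp_mono (val_pow_le _ h1 B₀) ?_
    have := hB₀ v
    omega

theorem nrm_row : NRM_s := by
  intro F K _ _ _ _ _ _ _ _ _ A hA
  have := rinf_dvr F
  obtain ⟨δ, hδ0, hδ⟩ := nrm_den F K (fun v => A (Sum.inl v))
    (hA.preimage (f := Sum.inl) Sum.inl_injective.injOn)
  obtain ⟨B₀, hB₀⟩ := bdd_of_supp hA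
  have bd := bdd' (val := fun v : HeightOneSpectrum (Oinf F K) => v.valuation K)
    fun y hy => supp_finite hy
  obtain ⟨n, hn⟩ := bd (algebraMap F[X] K δ)
  have hX : (RatFunc.X⁻¹ : RatFunc F) ≠ 0 := inv_ne_zero RatFunc.X_ne_zero
  have hs : algebraMap (RatFunc F) K RatFunc.X⁻¹ ≠ 0 := (_root_.map_ne_zero _).2 hX
  obtain ⟨B, hB⟩ := bd ((algebraMap (RatFunc F) K RatFunc.X⁻¹ ^
    ((B₀ + n) * Module.finrank (RatFunc F) K))⁻¹ *
      (algebraMap (RatFunc F) K RatFunc.X⁻¹ ^ (B₀ + n) * algebraMap F[X] K δ))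
  have hδK : algebraMap F[X] K δ ≠ 0 := fun h =>
    hδ0 (FunctionField.algebraMap_injective F K (by rw [h, map_zero]))
  refine ⟨(B₀ + n) * Module.finrank (RatFunc F) K, B, fun y hy hy0 => ?_⟩
  have hz0 : y * algebraMap F[X] K δ ≠ 0 := mul_ne_zero hy0 hδK
  have h1 : IsIntegral F[X] (y * algebraMap F[X] K δ) := by
    obtain ⟨o, ho⟩ := HeightOneSpectrum.mem_integers_of_valuation_le_one
      (R := FunctionField.ringOfIntegers F K) K (y * algebraMap F[X] K δ) fun v => by
        simpa using val_mul_le (v.valuation K) (hy (Sum.inl v)) (hδ v)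
    rw [← ho]
    exact o.2
  have h2 : IsIntegral (Rinf F) (algebraMap (RatFunc F) K RatFunc.X⁻¹ ^ (B₀ + n) *
      (y * algebraMap F[X] K δ)) := by
    obtain ⟨o, ho⟩ := HeightOneSpectrum.mem_integers_of_valuation_le_one
      (R := Oinf F K) K (algebraMap (RatFunc F) K RatFunc.X⁻¹ ^ (B₀ + n) *
        (y * algebraMap F[X] K δ)) fun v => by
        have := val_mul_le _ (val_pow_le _ (le_exp_neg_one _ (inf_pole F K v)) (B₀ + n))
          (val_mul_le _ (hy (Sum.inr v)) (hn v))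
        rw [← exp_zero]
        refine exp_mono this ?_
        have := hB₀ (Sum.inr v)
        push_cast
        omega
    rw [← ho]
    exact o.2
  obtain ⟨a, ha⟩ := IsIntegrallyClosed.isIntegral_iff.1 (Algebra.isIntegral_norm (RatFunc F) h1)
  have ha0 : a ≠ 0 := by
    rintro rfl
    rw [map_zero] at ha
    exact Algebra.norm_ne_zero_iff.2 hz0 ha.symm
  have hN : Algebra.norm (RatFunc F) (algebraMap (RatFunc F) K RatFunc.X⁻¹ ^ (B₀ + n) *
      (y * algebraMap F[X] K δ)) = RatFunc.X⁻¹ ^ ((B₀ + n) * Module.finrank (RatFunc F) K) *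
        algebraMap F[X] (RatFunc F) a := by
    rw [map_mul, ← map_pow, Algebra.norm_algebraMap, ← pow_mul, ha]
  obtain ⟨r, hr⟩ := IsIntegrallyClosed.isIntegral_iff.1 (Algebra.isIntegral_norm (RatFunc F) h2)
  have h3 := (Valuation.mem_valuationSubring_iff _ _).1 r.2
  have h4 : (r : RatFunc F) = RatFunc.X⁻¹ ^ ((B₀ + n) * Module.finrank (RatFunc F) K) *
      algebraMap F[X] (RatFunc F) a := hr.trans hN
  rw [h4, map_mul, map_pow, map_inv₀, winf_X, winf_poly F ha0, ← exp_neg, pow_exp, ← exp_add,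
    ← exp_zero, exp_le_exp] at h3
  refine ⟨a, ha0, by omega, ?_⟩
  rintro (v | v)
  · obtain ⟨w, hw, e⟩ := nrm_cof (L := RatFunc F) h1 hz0
    rw [← ha, ← IsScalarTower.algebraMap_apply] at e
    have h5 : v.valuation K w ≤ 1 := val_le_one (K := K) v ⟨w, hw⟩
    have h6 : v.valuation K (algebraMap F[X] K δ) ≤ 1 :=
      val_le_one (K := K) v (algebraMap F[X] _ δ)
    show v.valuation K _ ≤ v.valuation K y * _
    rw [e, map_mul, map_mul, mul_assoc]
    exact mul_le_mul' le_rfl ((mul_le_one' h6 h5).trans (one_le_exp B))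
  · obtain ⟨w, hw, e⟩ := nrm_cof (L := RatFunc F) h2 (mul_ne_zero (pow_ne_zero _ hs) hz0)
    rw [hN, map_mul, map_pow, ← IsScalarTower.algebraMap_apply] at e
    have h5 : v.valuation K w ≤ 1 := val_le_one (K := K) v ⟨w, hw⟩
    have e' : algebraMap F[X] K a = y * (((algebraMap (RatFunc F) K RatFunc.X⁻¹ ^
        ((B₀ + n) * Module.finrank (RatFunc F) K))⁻¹ *
          (algebraMap (RatFunc F) K RatFunc.X⁻¹ ^ (B₀ + n) * algebraMap F[X] K δ)) * w) := by
      rw [(eq_inv_mul_iff_mul_eq₀ (pow_ne_zero _ hs)).2 e]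
      ring
    show v.valuation K _ ≤ v.valuation K y * _
    rw [e', map_mul, map_mul]
    exact mul_le_mul' le_rfl ((mul_le_mul' (hB v) h5).trans (mul_one _).le)

end Pool.Agent.G2F
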