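import Pool.Agent.MP_a59382_lc.G2.Defs

namespace Pool.Agent.G2F

open Pool.Agent.MP_a59382_lc Pool.Agent.MP_a59382_lc.H11 Polynomial IsDedekindDomain WithZero
open Pool.Agent.MP_a59382_lc.H18 (In Sm Kit)
open scoped WithZero

-- BEGIN
theorem sys_row (hCMP : CMP_s) (hLOW : LOW_s) (hCST : CST_s) (hZP : ZP_s) : SYS_s := by
  intro p k K _ hp _ _ _ _ _ _ _ _ _ _
  have : CharP K p := charP_of_injective_ringHom ((algebraMap k[X] K).comp C).injective p
  refine ⟨hp.out.two_le, fun n x y => add_pow_char_pow x y p n, fun y hy => ?_, ?_, ?_, ?_,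
    hLOW p k K, hCST p k K, (hZP p k K).1, (hZP p k K).2⟩
  · exact finite_sum (p := fun i => vz k K i y ≠ 1)
      (supp_finite (O := FunctionField.ringOfIntegers k K) hy) (supp_finite (O := Oinf k K) hy)
  · rintro Q n rfl
    exact (hCMP p k K n).1
  · rintro Q n rfl
    exact (hCMP p k K n).2.1
  · rintro Q n rfl
    exact (hCMP p k K n).2.2

end Pool.Agent.G2F

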