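import Pool.Agent.MP_a59382_lc.G2.Defs

/-! Row TWO: two expansions with constant coefficients agree. -/

namespace Pool.Agent.G2F

open Pool.Agent.MP_a59382_lc Pool.Agent.MP_a59382_lc.H11 Polynomial IsDedekindDomain WithZero
open Pool.Agent.MP_a59382_lc.H18 (In Sm Kit)
open scoped WithZero

theorem two_unit {K : Type} [Field K] {q : ℕ} {t : K} {ι : Type} {val : ι → Valuation K ℤᵐ⁰}
    (S : Sz q t val) {y : K} (hy : ∀ i, val i y ≤ 1) (h0 : y ≠ 0) (i : ι) :
    exp (-((0 : ℕ) : ℤ)) ≤ val i y := by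
  obtain ⟨B, hB⟩ := S.low (fun _ => 0) (by simp)
  have h1 := hB (y ^ (B + 1)) (fun i => by
    rw [map_pow, Nat.cast_zero, exp_zero]
    exact pow_le_one₀ zero_le (hy i)) (pow_ne_zero _ h0) i
  obtain ⟨m, hm⟩ := ex_exp (val i) h0
  rw [map_pow, hm, pow_exp, exp_le_exp] at h1
  rw [hm, exp_le_exp]
  by_contra h
  have h2 : m ≤ -1 := by omega
  have h3 : (0 : ℤ) ≤ B := Int.natCast_nonneg B
  push_cast at h1
  nlinarith

theorem two_fib {K : Type} [Field K] (t : K) {J : Type} [Fintype J] (e : J → ℕ) (w : J → K)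
    {N : ℕ} (hN : ∀ j, e j < N) :
    ∑ m : Fin N, (∑ j ∈ Finset.univ.filter fun j => e j = (m : ℕ), w j) * t ^ (1 * (m : ℕ)) =
      ∑ j, w j * t ^ e j := by
  rw [← Finset.sum_fiberwise_of_maps_to (s := Finset.univ) (t := Finset.range N) (g := e)
    (fun j _ => Finset.mem_range.2 (hN j)), Finset.sum_range]
  refine Finset.sum_congr rfl fun m _ => ?_
  rw [Finset.sum_mul]
  refine Finset.sum_congr rfl fun j hj => ?_
  rw [(Finset.mem_filter.1 hj).2, one_mul]

theorem two_row : TWO_s := by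
  intro F K _ _ _ φ t ι val S ht n J J' _ _ e e' w w' he _ hw hw' hf hf' h
  have hq := S.two_le
  obtain ⟨N, hN, hN'⟩ : ∃ N, (∀ j, e j < N) ∧ ∀ j, e' j < N := by
    obtain ⟨A, hA⟩ := (Set.finite_range e).bddAbove
    obtain ⟨A', hA'⟩ := (Set.finite_range e').bddAbove
    refine ⟨A + A' + 1, fun j => ?_, fun j => ?_⟩
    · have : e j ≤ A := hA ⟨j, rfl⟩
      omega
    · have : e' j ≤ A' := hA' ⟨j, rfl⟩
      omega
  obtain ⟨i₀, hi₀⟩ := S.pol
  have hu : ∀ (m : Fin N) i, val i ((∑ j ∈ Finset.univ.filter fun j => e j = (m : ℕ), w j) -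
      ∑ j ∈ Finset.univ.filter fun j => e' j = (m : ℕ), w' j) ≤ 1 := fun m i =>
    (val i).map_sub_le ((val i).map_sum_le fun j _ => hw j i)
      ((val i).map_sum_le fun j _ => hw' j i)
  have key := H18.separate (val i₀) hi₀ (J := Fin N) (e := fun m => (m : ℕ)) Fin.val_injective
    (B := 0) (s := 1) (by omega)
    (u := fun m => (∑ j ∈ Finset.univ.filter fun j => e j = (m : ℕ), w j) -
      ∑ j ∈ Finset.univ.filter fun j => e' j = (m : ℕ), w' j)
    (fun m => ⟨(hu m i₀).trans (one_le_exp _), fun h0 => two_unit S (hu m) h0 i₀⟩) (by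
      simp only [sub_mul, Finset.sum_sub_distrib]
      rw [two_fib t e w hN, two_fib t e' w' hN', h, sub_self])
  refine sum_mem fun j _ => mul_mem ((H18.ex_C φ (v := w j) ?_).elim fun a ha =>
    RingHom.mem_range.2 ⟨_, ha⟩) (pow_mem (RingHom.mem_range.2 ⟨_, ht⟩) _)
  have h1 := sub_eq_zero.1 (key ⟨e j, hN j⟩)
  have h2 : (Finset.univ.filter fun j' => e j' = e j) = {j} := by
    ext j'
    simp [he.eq_iff]
  simp only [h2, Finset.sum_singleton] at h1
  have h3 : w j ^ Nat.card F ^ (n + 1) = w j := by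
    rw [h1, sum_pow' (by positivity) (S.frob (n + 1))]
    exact Finset.sum_congr rfl fun j' _ => hf' j'
  rwa [pow_succ, pow_mul, hf j] at h3

end Pool.Agent.G2F
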