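import Pool.Agent.MP_a59382_lc.G2.Defs

/-! Arbitrary constant fields: the family of places with the soundness of the Artin-Schreier
conditions as a field. -/

namespace Pool.Agent.G2W

open Pool.Agent.MP_a59382_lc Pool.Agent.MP_a59382_lc.H11 WithZero
open scoped WithZero

/-- What descends from a field with perfect constants to a subfield. -/
structure Sy {K : Type} [Field K] (q : ℕ) (t : K) {ι : Type} (val : ι → Valuation K ℤᵐ⁰) :
    Prop where
  two_le : 2 ≤ q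
  frob : ∀ (k : ℕ) (x y : K), (x + y) ^ q ^ k = x ^ q ^ k + y ^ q ^ k
  supp : ∀ y : K, y ≠ 0 → {i | val i y ≠ 1}.Finite
  indep : ∀ (Q k : ℕ), Q = q ^ k → ∀ c : Fin Q → K, cs Q t c = 0 → c = 0
  comp : ∀ (Q k : ℕ), Q = q ^ k → ∃ γ : ι → ℕ, {i | γ i ≠ 0}.Finite ∧
    ∀ (i : ι) (m : ℤ) (c : Fin Q → K), val i (cs Q t c) ≤ exp ((Q : ℤ) * m) →
      ∀ d, val i (c d) ≤ exp (m + γ i)
  low : ∀ A : ι → ℕ, {i | A i ≠ 0}.Finite → ∃ B : ℕ, ∀ g : K, (∀ i, val i g ≤ exp (A i : ℤ)) →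
    g ≠ 0 → ∀ i, exp (-(B : ℤ)) ≤ val i g
  zer : ∃ i, val i t < 1
  pol : ∃ i, 1 < val i t
  phi : ∃ r : ℕ, 0 < r ∧ ∀ k, 0 < k → r ∣ k → ∀ j < k, ∀ x : K,
    Phi (q ^ k) (t ^ q ^ j) x → ∃ n, n % k = j ∧ x = t ^ q ^ n

variable {K : Type} [Field K]

namespace Sy

variable {q : ℕ} {t : K} {ι : Type} {val : ι → Valuation K ℤᵐ⁰} (S : Sy q t val)
include S

theorem pow_pos (k : ℕ) : 0 < q ^ k := Nat.pow_pos (by have := S.two_le; omega)

theorem frob_sub (k : ℕ) (x y : K) : (x - y) ^ q ^ k = x ^ q ^ k - y ^ q ^ k := by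
  have := S.frob k (x - y) y
  rw [sub_add_cancel] at this
  rw [this, add_sub_cancel_right]

theorem frob_neg (k : ℕ) (x : K) : (-x) ^ q ^ k = -x ^ q ^ k := by
  have := S.frob_sub k 0 x
  rwa [zero_sub, zero_pow (S.pow_pos k).ne', zero_sub] at this

theorem frob_inj (k : ℕ) {x y : K} (h : x ^ q ^ k = y ^ q ^ k) : x = y := by
  have := S.frob_sub k x y
  rw [h, sub_self] at this
  exact sub_eq_zero.1 (pow_eq_zero_iff (S.pow_pos k).ne' |>.1 this)

theorem cs_add {Q k : ℕ} (hQ : Q = q ^ k) (c c' : Fin Q → K) :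
    cs Q t (c + c') = cs Q t c + cs Q t c' :=
  cs_add' t (fun x y => hQ ▸ S.frob k x y) c c'

theorem cs_inj {Q k : ℕ} (hQ : Q = q ^ k) {c c' : Fin Q → K} (h : cs Q t c = cs Q t c') :
    c = c' := by
  have := S.cs_add hQ (c - c') c'
  rw [sub_add_cancel, h, right_eq_add] at this
  exact sub_eq_zero.1 (S.indep Q k hQ _ this)

theorem not_pow (y : K) : t ≠ y ^ q := by
  intro h
  have h2 := S.two_le
  have e : cs q t (Pi.single ⟨1, by omega⟩ 1) = cs q t (Pi.single ⟨0, by omega⟩ y) := by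
    rw [cs_single, cs_single]
    simpa using h
  have := congrFun (S.cs_inj (pow_one q).symm e) ⟨1, by omega⟩
  simp at this

theorem t_ne : t ≠ 0 := by
  have := S.not_pow 0
  rwa [zero_pow (by have := S.two_le; omega)] at this

theorem aniso : Aniso K := by
  have h2 := S.two_le
  refine ⟨q, t, by omega, fun x y h => ?_⟩
  by_cases hy : y = 0
  · subst hy
    rw [zero_pow (by omega), mul_zero, sub_zero] at h
    exact ⟨pow_eq_zero_iff (by omega) |>.1 h, rfl⟩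
  · refine absurd ?_ (S.not_pow (x / y))
    rw [div_pow, eq_div_iff (pow_ne_zero _ hy)]
    exact (sub_eq_zero.1 h).symm

theorem as_zero (k : ℕ) : AS (q ^ k) (0 : K) := ⟨0, by rw [zero_pow (S.pow_pos k).ne', sub_zero]⟩

theorem as_add {k : ℕ} {a b : K} (ha : AS (q ^ k) a) (hb : AS (q ^ k) b) : AS (q ^ k) (a + b) := by
  obtain ⟨u, rfl⟩ := ha
  obtain ⟨w, rfl⟩ := hb
  exact ⟨u + w, by rw [S.frob]; ring⟩

theorem as_sub {k : ℕ} {a b : K} (ha : AS (q ^ k) a) (hb : AS (q ^ k) b) : AS (q ^ k) (a - b) := by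
  obtain ⟨u, rfl⟩ := ha
  obtain ⟨w, rfl⟩ := hb
  exact ⟨u - w, by rw [S.frob_sub]; ring⟩

theorem as_iter (k a : ℕ) (z : K) : AS (q ^ k) (z ^ q ^ (k * a) - z) := by
  induction a with
  | zero => simpa using S.as_zero k
  | succ a ih =>
    have := S.as_add ih ⟨z ^ q ^ (k * a), rfl⟩
    convert this using 1
    rw [← pow_mul, ← pow_add, Nat.mul_succ]
    ring

theorem phi_shift {k : ℕ} (a : ℕ) {τ x : K} :
    Phi (q ^ k) (τ ^ q ^ (k * a)) x ↔ Phi (q ^ k) τ x := by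
  have h1 := S.as_iter k a τ
  have h2 := S.as_iter k a τ⁻¹
  rw [inv_pow] at h2
  constructor
  · rintro ⟨h0, h, h'⟩
    exact ⟨h0, by simpa using S.as_add h h1, by simpa using S.as_add h' h2⟩
  · rintro ⟨h0, h, h'⟩
    exact ⟨h0, by simpa using S.as_sub h h1, by simpa using S.as_sub h' h2⟩

theorem unit {y : K} (h : ∀ i, val i y ≤ 1) (h0 : y ≠ 0) (i : ι) : val i y = 1 := by
  obtain ⟨B, hB⟩ := S.low (fun _ => 0) (by simp)
  by_contra hne
  have h1 := le_exp_neg_one (val i) (lt_of_le_of_ne (h i) hne)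
  have h3 := hB (y ^ (B + 1)) (fun j => by
    rw [map_pow]
    simpa using pow_le_one₀ zero_le (h j)) (pow_ne_zero _ h0) i
  have h4 := h3.trans (val_pow_le (val i) h1 (B + 1))
  rw [exp_le_exp] at h4
  push_cast at h4
  omega

theorem phi_iff : ∃ r : ℕ, 0 < r ∧ ∀ k, 0 < k → r ∣ k → ∀ j < k, ∀ x : K,
    Phi (q ^ k) (t ^ q ^ j) x ↔ ∃ n, n % k = j ∧ x = t ^ q ^ n := by
  obtain ⟨r, hr, h⟩ := S.phi
  refine ⟨r, hr, fun k hk hrk j hj x => ?_⟩
  constructor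
  · exact h k hk hrk j hj x
  · rintro ⟨n, hn, rfl⟩
    have e : t ^ q ^ n = (t ^ q ^ j) ^ q ^ (k * (n / k)) := by
      rw [← pow_mul, ← pow_add, ← hn, Nat.mod_add_div]
    rw [← S.phi_shift (n / k), ← e]
    exact ⟨pow_ne_zero _ S.t_ne, by simpa using S.as_zero k, by simpa using S.as_zero k⟩

theorem dio_pow : ∃ r : ℕ, 0 < r ∧ ∀ k, 0 < k → r ∣ k → ∀ A : ℕ → Prop,
    Dio1 (fun x : K => ∃ n, A (n % k) ∧ x = t ^ q ^ n) := by
  classical
  obtain ⟨r, hr, h⟩ := S.phi_iff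
  refine ⟨r, hr, fun k hk hrk A => ?_⟩
  have := Dio.any ((Finset.range k).filter A)
    (S := fun j (v : Unit → K) => Phi (q ^ k) (t ^ q ^ j) (v ())) fun j => dio_Phi S.aniso _ _
  refine this.congr fun v => ⟨?_, ?_⟩
  · rintro ⟨n, hn, e⟩
    have hlt := Nat.mod_lt n hk
    exact ⟨n % k, by simp [hlt, hn], (h k hk hrk _ hlt _).2 ⟨n, rfl, e⟩⟩
  · rintro ⟨j, hj, hx⟩
    simp only [Finset.mem_filter, Finset.mem_range] at hj
    obtain ⟨n, hn, e⟩ := (h k hk hrk j hj.1 _).1 hx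
    exact ⟨n, hn ▸ hj.2, e⟩


/-- The machine equation bounds the poles of the unknowns. -/
theorem sound {Q k : ℕ} (hQ : Q = q ^ k) (h2 : 2 ≤ Q) : ∃ β : ℕ, ∀ (i : ι) (T a : K)
    (s : Finset (Fin Q)) (y : Fin Q → K), val i T ≤ 1 → val i a ≤ exp (β : ℤ) →
      cs Q t y = a + step Q T s y → ∀ d, val i (y d) ≤ exp (β : ℤ) := by
  obtain ⟨γ, hγ, hc⟩ := S.comp Q k hQ
  obtain ⟨G, hG⟩ := bdd_of_supp hγ
  refine ⟨2 * G + 1, fun i T a s y hT ha e => ?_⟩
  have key : ∀ M : ℕ, (∀ d, val i (y d) ≤ exp (M : ℤ)) →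
      ∀ d, val i (y d) ≤ exp ((2 * G + 1 : ℕ) : ℤ) := by
    intro M
    induction M using Nat.strong_induction_on with
    | _ M ih =>
      intro hM
      by_cases hle : M ≤ 2 * G + 1
      · exact fun d => exp_mono (hM d) (by exact_mod_cast hle)
      refine ih (M - 1) (by omega) fun d => ?_
      have h3 : val i (cs Q t y) ≤ exp (M : ℤ) := by
        rw [e]
        refine (val i).map_add_le (exp_mono ha (by omega)) ?_
        refine (val i).map_sum_le fun b _ => ?_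
        rw [map_mul, map_pow]
        exact (mul_le_mul' (pow_le_one₀ zero_le hT) (hM b)).trans (one_mul _).le
      have h4 : (M : ℤ) ≤ (Q : ℤ) * ((M - 1 - G : ℕ) : ℤ) := by
        have : M ≤ Q * (M - 1 - G) := by
          have : 2 * (M - 1 - G) ≤ Q * (M - 1 - G) := Nat.mul_le_mul_right _ h2
          omega
        exact_mod_cast this
      have h5 := hG i
      exact exp_mono (hc i _ y (exp_mono h3 h4) d) (by omega)
  choose n hn using fun d => ex_le (val i) (y d)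
  obtain ⟨M, hM⟩ := (Set.finite_range n).bddAbove
  refine key M fun d => exp_mono (hn d) ?_
  exact_mod_cast hM ⟨d, rfl⟩

/-- A diophantine set that contains all polynomials in `t` and consists of elements that are
integral wherever `t` is. -/
theorem dio_int {F : Type} [Field F] (φ : Polynomial F →+* K) (ht : φ Polynomial.X = t)
    (hF : ∀ c : F, φ (Polynomial.C c) ^ q = φ (Polynomial.C c)) :
    ∃ X : K → Prop, Dio1 X ∧ (∀ f : Polynomial F, X (φ f)) ∧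
      ∀ y, X y → ∀ i, val i t ≤ 1 → val i y ≤ 1 := by
  obtain ⟨r, hr, hD⟩ := S.dio_pow
  have h2 := S.two_le
  have hQ : 4 ≤ q ^ 2 := by nlinarith
  obtain ⟨β, hβ⟩ := S.sound (Q := q ^ 2) rfl (by omega)
  have hD' : Dio1 (fun x : K => ∃ n, x = t ^ q ^ n) :=
    (hD r hr dvd_rfl fun _ => True).congr fun x => by simp
  refine ⟨fun f => ∃ T : K, ∃ T₁ : K, (∃ n, T = t ^ q ^ n) ∧ (∃ n, T₁ = t ^ q ^ n) ∧
    Sol (q ^ 2) ⟨q ^ 2 - 1, by omega⟩ ⟨2, by omega⟩ t T T₁ (f ^ (β + 1)), ?_, ?_, ?_⟩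
  · exact Dio.ex1 (Dio.ex1 (Dio.and S.aniso (hD'.app (PF.var _)) (Dio.and S.aniso
      (hD'.app (PF.var _)) (dio_sol S.aniso _ _ t (PF.var _) (PF.var _) ((PF.var _).pow _)))))
  · intro f
    obtain ⟨n, hn⟩ := sol_poly φ hQ ht (S.frob 2)
      (fun c : F => by rw [sq, pow_mul, hF, hF]) (f ^ (β + 1))
    rw [map_pow] at hn
    exact ⟨_, _, ⟨2 * n, by rw [← pow_mul]⟩, ⟨2 * (n + 1 + n), by rw [← pow_mul]⟩, hn⟩
  · rintro f ⟨T, T₁, ⟨n, rfl⟩, ⟨n', rfl⟩, z, y, h3, h4, h5⟩ i hi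
    have hT : ∀ n, val i (t ^ q ^ n) ≤ 1 := fun n => by
      rw [map_pow]
      exact pow_le_one₀ zero_le hi
    have h6 := hβ i _ 0 _ z (hT n') (by simp) (by rw [zero_add]; exact h3)
    have h7 := hβ i _ _ _ y (hT n) (h6 _) h4 ⟨2, by omega⟩
    by_contra hlt
    obtain ⟨m, hm, e⟩ := ex_pole _ (not_le.1 hlt)
    rw [h5, map_pow, e, pow_exp, exp_le_exp] at h7
    have : (β + 1) * m ≤ β := by exact_mod_cast h7
    nlinarith

end Sy

end Pool.Agent.G2W
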