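import Pool.Agent.MP_a59382_lc.G2.Z1

/-! Rows KIT and FR: integrality, size at infinity and the Frobenius relation. -/

set_option linter.unusedSectionVars false

namespace Pool.Agent.G2W

open Polynomial WithZero Pool.Agent.MP_a59382_lc Pool.Agent.MP_a59382_lc.H11
open Pool.Agent.MP_a59382_lc.H18 hiding ex_inf eq_zero tp_inj tp_lt pell val_C val_poly deg_lt
  phi_inj ex_kit ex_fr sys_inv
open scoped WithZero

variable {K : Type} [Field K] {F : Type} [Field F] [Finite F] (φ : F[X] →+* K)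
variable {ι : Type} {val : ι → Valuation K ℤᵐ⁰} {t : K} {q : ℕ}

theorem sys_inv (S : Sy q t val) : Sy q t⁻¹ val := by
  have e : ∀ (Q : ℕ) (c : Fin Q → K),
      cs Q t⁻¹ c * t ^ (Q - 1) = cs Q t fun d => c d.rev := fun Q c => by
    rw [cs, cs, Finset.sum_mul, ← Equiv.sum_comp Fin.revPerm]
    refine Finset.sum_congr rfl fun d _ => ?_
    have : Q - 1 = (d.rev : ℕ) + d := by
      have := d.2
      rw [Fin.val_rev]
      omega
    rw [this, pow_add, Fin.revPerm_apply, inv_pow]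
    have := S.t_ne
    field_simp
  refine ⟨S.two_le, S.frob, S.supp, fun Q k hQ c hc => ?_,
    fun Q k hQ => ?_, S.low, ?_, ?_, ?_⟩
  · have := S.indep Q k hQ _ ((e Q c).symm.trans (by rw [hc, zero_mul]))
    funext d
    simpa using congrFun this d.rev
  · classical
    obtain ⟨γ, hγ, h⟩ := S.comp Q k hQ
    choose n hn using fun i => ex_le (val i) t
    refine ⟨fun i => (if val i t = 1 then 0 else n i) + γ i,
      ((S.supp t S.t_ne).union hγ).subset fun i hi => ?_, fun i m c hc d => ?_⟩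
    · by_contra h
      simp only [Set.mem_union, Set.mem_ofPred_eq, not_or, not_not] at h
      simp [h] at hi
    · have h1 : val i t ≤ exp ((if val i t = 1 then 0 else n i : ℕ) : ℤ) := by
        split_ifs with h
        · simp [h]
        · exact hn i
      beta_reduce
      generalize (if val i t = 1 then 0 else n i) = a at h1 ⊢
      have := h i (m + a) (fun d => c d.rev) (by
        rw [← e]
        refine exp_mono (val_mul_le _ hc (val_pow_le _ h1 _)) ?_
        have : ((Q - 1 : ℕ) : ℤ) ≤ Q := by omega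
        nlinarith) d.rev
      rw [Fin.rev_rev] at this
      exact exp_mono this (by push_cast; omega)
  · obtain ⟨i, hi⟩ := S.pol
    exact ⟨i, by rw [map_inv₀]; exact inv_lt_one_of_one_lt₀ hi⟩
  · obtain ⟨i, hi⟩ := S.zer
    refine ⟨i, ?_⟩
    rw [map_inv₀]
    exact one_lt_inv_iff₀.2 ⟨zero_lt_iff.2 ((Valuation.ne_zero_iff _).2 S.t_ne), hi⟩
  · obtain ⟨r, hr, h⟩ := S.phi
    refine ⟨r, hr, fun k hk hrk j hj x hx => ?_⟩
    obtain ⟨h0, h1, h2⟩ := hx
    rw [inv_pow] at h1 h2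
    rw [inv_inv] at h2
    obtain ⟨n, hn, e1⟩ := h k hk hrk j hj x⁻¹ ⟨inv_ne_zero h0, h2, by rw [inv_inv]; exact h1⟩
    exact ⟨n, hn, by rw [inv_pow, ← e1, inv_inv]⟩

section

variable (S : Sy q t val)
include S

theorem ex_inf : ∃ i, 1 < val i t := by
  exact S.pol

theorem eq_zero {y : K} (h : In val t y) (h' : Sm val t y 1) : y = 0 := by
  obtain ⟨i, hi⟩ := ex_inf S
  by_contra h0
  have h2 := S.unit (y := y) (fun i => (le_or_gt _ _).elim (h i) fun hi => by
    simpa using (h' i hi).le) h0 i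
  have h3 := h' i hi
  rw [h2, map_one] at h3
  exact lt_irrefl _ h3

theorem pell {A : ℕ} (hA : 0 < A) {b : K} (hb : In val t b) (hb' : Sm val t (b - t ^ A) (t ^ A)) :
    ∀ (m : ℕ) (x y : K), In val t x → In val t y → Sm val t y x → Sm val t (x - t ^ m) (t ^ m) →
      x ^ 2 - b * x * y + y ^ 2 = 1 → ∃ n, m = n * A ∧ x = U b (n + 1) ∧ y = U b n := by
  intro m
  induction m using Nat.strong_induction_on with
  | _ m ih =>
  intro x y hx hy h1 h2 h3
  rcases Nat.eq_zero_or_pos m with rfl | hm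
  · rw [pow_zero] at h2
    obtain rfl := sub_eq_zero.1 (eq_zero S
      (fun i hi => (val i).map_sub_le (hx i hi) (map_one _).le) h2)
    exact ⟨0, by simp, rfl, eq_zero S hy h1⟩
  have e : x * (b * y - x) = y ^ 2 - 1 := by linear_combination -h3
  have key : ∀ i, 1 < val i t → val i x = val i (t ^ m) ∧ 1 < val i x ∧
      val i (t ^ A * y - t ^ m) < val i (t ^ m) := fun i hi => by
    have a1 := (val i).map_eq_of_sub_lt (h2 i hi)
    have a2 : 1 < val i x := by
      rw [a1, map_pow]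
      exact one_lt_pow₀ hi hm.ne'
    have a3 : val i (b * y - x) < val i x := by
      refine lt_of_mul_lt_mul_left' (a := val i x) ?_
      rw [← map_mul, e, ← sq]
      refine (val i).map_sub_lt ?_ ?_
      · rw [map_pow]
        exact pow_lt_pow_left₀ (h1 i hi) zero_le two_ne_zero
      · rw [map_one]
        exact one_lt_pow₀ a2 two_ne_zero
    have a4 := (val i).map_eq_of_sub_lt a3
    refine ⟨a1, a2, ?_⟩
    rw [show t ^ A * y - t ^ m = (b * y - x) + (x - t ^ m) - (b - t ^ A) * y by ring]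
    refine (val i).map_sub_lt ((val i).map_add_lt (a1 ▸ a3) (h2 i hi)) ?_
    rw [← a1, ← a4, map_mul, map_mul, (val i).map_eq_of_sub_lt (hb' i hi)]
    refine mul_lt_mul_of_pos_right (hb' i hi) (zero_lt_iff.2 fun h0 => ?_)
    rw [map_mul, h0, mul_zero] at a4
    exact absurd (a4 ▸ a2) (by simp)
  have hAm : A ≤ m := by
    by_contra h
    obtain ⟨i, hi⟩ := ex_inf S
    have := (key i hi).2.2
    rw [eq_zero S hy fun i hi => ?_] at this
    · simp at this
    refine lt_of_mul_lt_mul_left' (a := val i (t ^ A)) ?_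
    rw [← map_mul, (val i).map_eq_of_sub_lt (key i hi).2.2, map_one, mul_one, map_pow, map_pow]
    exact pow_lt_pow_right₀ hi (by omega)
  obtain ⟨k, rfl⟩ := Nat.exists_eq_add_of_le hAm
  have h4 : Sm val t (y - t ^ k) (t ^ k) := fun i hi => by
    refine lt_of_mul_lt_mul_left' (a := val i (t ^ A)) ?_
    rw [← map_mul, ← map_mul, mul_sub, ← pow_add]
    exact (key i hi).2.2
  obtain ⟨n, e1, e2, e3⟩ := ih k (by omega) y (b * y - x) hy
    (fun i hi => (val i).map_sub_le (by rw [map_mul]; exact mul_le_one' (hb i hi) (hy i hi))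
      (hx i hi)) (fun i hi => by
      have a1 : 1 ≤ val i y := by
        rw [(val i).map_eq_of_sub_lt (h4 i hi), map_pow]
        exact one_le_pow₀ hi.le
      refine lt_of_mul_lt_mul_left' (a := val i x) ?_
      rw [← map_mul, e]
      refine lt_of_le_of_lt (b := val i y * val i y) ((val i).map_sub_le ?_ ?_) ?_
      · rw [map_pow, sq]
      · rw [map_one]
        exact one_le_mul a1 a1
      · exact mul_lt_mul_of_pos_right (h1 i hi) (zero_lt_one.trans_le a1))
    h4 (by linear_combination h3)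
  exact ⟨n + 1, by rw [e1]; ring, by rw [U, ← e2, ← e3]; ring, e2⟩

end

variable {φ} (S : Sy (Nat.card F) t val) (ht : φ X = t)
include S ht

theorem val_C (i : ι) {c : F} (hc : c ≠ 0) : val i (φ (C c)) = 1 := by
  have := Fintype.ofFinite F
  have h := congrArg (fun x => val i (φ (C x))) (FiniteField.pow_card_sub_one_eq_one c hc)
  simp only [map_pow, map_one] at h
  exact (pow_eq_one_iff_of_nonneg zero_le (by have := Fintype.one_lt_card (α := F); omega)).1 h

theorem val_poly {i : ι} (hi : 1 < val i t) {a : F[X]} (ha : a ≠ 0) :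
    val i (φ a) = val i t ^ a.natDegree := by
  have h : ∀ k, a.coeff k ≠ 0 → val i (φ (C (a.coeff k) * X ^ k)) = val i t ^ k := fun k hk => by
    rw [map_mul, map_mul, map_pow, map_pow, ht, val_C S ht i hk, one_mul]
  have h0 := h _ (leadingCoeff_ne_zero.2 ha)
  conv_lhs => rw [a.as_sum_support_C_mul_X_pow, map_sum]
  rw [(val i).map_sum_eq_of_lt (natDegree_mem_support_of_nonzero ha) fun k hk => ?_, h0]
  simp only [Finset.mem_sdiff, Finset.mem_singleton] at hk
  rw [h0, h k (mem_support_iff.1 hk.1)]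
  exact pow_lt_pow_right₀ hi (lt_of_le_of_ne (le_natDegree_of_mem_supp k hk.1) hk.2)

theorem deg_lt {a b : F[X]} (h : Sm val t (φ a) (φ b)) : a.degree < b.degree := by
  obtain ⟨i, hi⟩ := ex_inf S
  have h1 := h i hi
  have hb : b ≠ 0 := by
    rintro rfl
    simp at h1
  rcases eq_or_ne a 0 with rfl | ha
  · simpa [bot_lt_iff_ne_bot] using hb
  rw [val_poly S ht hi ha, val_poly S ht hi hb, pow_lt_pow_iff_right₀ hi] at h1
  exact degree_lt_degree h1

theorem phi_inj : Function.Injective φ := by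
  refine (injective_iff_map_eq_zero φ).2 fun a h => by_contra fun ha => ?_
  obtain ⟨i, hi⟩ := ex_inf S
  have := val_poly S ht hi ha
  rw [h, map_zero] at this
  exact pow_ne_zero _ (zero_lt_one.trans hi).ne' this.symm

theorem ex_kit : ∃ O L, Kit φ val t O L := by
  obtain ⟨O, h1, h2, h3⟩ := S.dio_int φ ht (C_pow φ)
  let ψ : F[X] →+* K := eval₂RingHom (φ.comp C) t⁻¹
  have hψ : ∀ c, ψ (C c) = φ (C c) := fun c => by simp [ψ]
  obtain ⟨O', h4, h5, h6⟩ := (sys_inv S).dio_int ψ (by simp [ψ]) (C_pow ψ)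
  have h0 := S.t_ne
  have key : ∀ (n : ℕ) (a : F[X]), a.degree < (n + 1 : ℕ) → ∃ u, φ a = t ^ n * ψ u := by
    intro n a ha
    refine ⟨∑ k ∈ Finset.range (n + 1), C (a.coeff k) * X ^ (n - k), ?_⟩
    conv_lhs => rw [a.as_sum_range_C_mul_X_pow' (n := n + 1)
      (Nat.lt_succ_of_le (natDegree_le_iff_degree_le.2 (Order.le_of_lt_succ ha)))]
    rw [map_sum, map_sum, Finset.mul_sum]
    refine Finset.sum_congr rfl fun k hk => ?_
    obtain ⟨j, rfl⟩ := Nat.exists_eq_add_of_le (Nat.le_of_lt_succ (Finset.mem_range.1 hk))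
    simp only [map_mul, map_pow, hψ, ht, Nat.add_sub_cancel_left, pow_add]
    simp only [ψ, coe_eval₂RingHom, eval₂_X, inv_pow]
    field_simp
  refine ⟨O, fun x y => ∃ z u w, y * z = 1 ∧ O' u ∧ O' w ∧ x * (t + w) = u * y, .of_one h1, ?_,
    h2, h3, fun a b h => ?_, ?_⟩
  · refine .ex (.ex (.ex (.and (.eq ?_ ?_) (.and ((H18.Dio.of_one h4).comp ?_)
      (.and ((H18.Dio.of_one h4).comp ?_) (.eq ?_ ?_)))))) <;> fun_prop
  · have hb : b ≠ 0 := by
      rintro rfl
      simp at h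
    have hb' : φ b ≠ 0 := (map_ne_zero_iff φ (phi_inj S ht)).2 hb
    rcases eq_or_ne a 0 with rfl | ha
    · exact ⟨_, _, _, mul_inv_cancel₀ hb', h5 0, h5 0, by simp⟩
    obtain ⟨n, hn⟩ := Nat.exists_eq_succ_of_ne_zero
      (Nat.ne_zero_of_lt (natDegree_lt_natDegree ha h))
    have hd : b.degree = (n + 1 : ℕ) := by rw [degree_eq_natDegree hb, hn]
    obtain ⟨u, hu⟩ := key n a (hd ▸ h)
    obtain ⟨w, hw⟩ := key n b.eraseLead (hd ▸ degree_eraseLead_lt hb)
    have e := congrArg φ b.eraseLead_add_C_mul_X_pow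
    have hc : φ (C b.leadingCoeff⁻¹) * φ (C b.leadingCoeff) = 1 := by
      rw [← map_mul, ← map_mul, inv_mul_cancel₀ (leadingCoeff_ne_zero.2 hb), map_one, map_one]
    refine ⟨_, _, _, mul_inv_cancel₀ hb', h5 (C b.leadingCoeff⁻¹ * u),
      h5 (C b.leadingCoeff⁻¹ * w), ?_⟩
    rw [map_add, map_mul, map_pow, ht, hn, hw, pow_succ] at e
    rw [← e, hu, map_mul, map_mul, hψ]
    linear_combination (-t ^ n * ψ u * t) * hc
  · rintro x y ⟨z, u, w, e1, a1, a2, e2⟩ i hi
    have h7 : val i t⁻¹ ≤ 1 := by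
      rw [map_inv₀]
      exact inv_le_one_of_one_le₀ hi.le
    have h8 := congrArg (val i) e2
    rw [map_mul, map_mul, (val i).map_add_eq_of_lt_left ((h6 w a2 i h7).trans_lt hi)] at h8
    have hy := zero_lt_iff.2 ((val i).ne_zero_iff.2 (left_ne_zero_of_mul_eq_one e1))
    refine lt_of_mul_lt_mul_right' (a := val i t) ?_
    rw [h8, mul_comm]
    exact mul_lt_mul_of_pos_left ((h6 u a1 i h7).trans_lt hi) hy

theorem ex_fr {O : K → Prop} {L : K → K → Prop} (M : Kit φ val t O L) :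
    ∃ Φ : K → K → K → Prop, (H18.Dio K fun x : K × K × K => Φ x.1 x.2.1 x.2.2) ∧
      (∀ T x h, Φ T x h → ∃ n, T = t ^ Nat.card F ^ n ∧ h = x ^ Nat.card F ^ n) ∧
      ∀ a n, Φ (t ^ Nat.card F ^ n) (φ a) (φ a ^ Nat.card F ^ n) := by
  obtain ⟨r, hr, hD⟩ := S.dio_pow
  have hD' : H18.Dio K fun x : K => ∃ n, x = t ^ Nat.card F ^ n :=
    .of_one ((hD r hr dvd_rfl fun _ => True).congr fun x => by simp)
  have hq := S.two_le
  let P : K → K → K → K → Prop := fun T T' x h => ∃ u v, O x ∧ O u ∧ O v ∧ L x T ∧ L v u ∧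
    L (u - T') T' ∧ u ^ 2 - (T + x) * u * v + v ^ 2 = 1 ∧ h + T' = 2 * u - (T + x) * v
  have h1 : H18.Dio K fun x : K × K × K × K => P x.1 x.2.1 x.2.2.1 x.2.2.2 := by
    refine .ex (.ex (.and (M.dO.comp ?_) (.and (M.dO.comp ?_) (.and (M.dO.comp ?_)
      (.and (M.dL.app2 ?_ ?_) (.and (M.dL.app2 ?_ ?_) (.and (M.dL.app2 ?_ ?_)
      (.and (.eq ?_ ?_) (.eq ?_ ?_))))))))) <;> fun_prop
  have h2 : ∀ a c x h, P (t ^ Nat.card F ^ a) (t ^ Nat.card F ^ c) x h →
      h = x ^ Nat.card F ^ (c - a) := by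
    rintro a c x h ⟨u, v, a1, a2, a3, a4, a5, a6, a7, a8⟩
    obtain ⟨n, e, rfl, rfl⟩ := pell S (S.pow_pos a) (b := t ^ Nat.card F ^ a + x)
      (fun i hi => (val i).map_add_le (by rw [map_pow]; exact pow_le_one₀ zero_le hi)
        (M.oI _ a1 i hi)) (by simpa using M.lS _ _ a4) _ u v (M.oI _ a2) (M.oI _ a3)
      (M.lS _ _ a5) (M.lS _ _ a6) a7
    obtain ⟨j, rfl⟩ := Nat.exists_eq_add_of_le
      ((Nat.pow_dvd_pow_iff_le_right hq).1 ⟨n, e.trans (mul_comm _ _)⟩)
    rw [pow_add, mul_comm] at e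
    obtain rfl := Nat.eq_of_mul_eq_mul_right (S.pow_pos a) e
    rw [U_frob φ, S.frob, ← pow_mul, ← pow_add, add_comm] at a8
    rw [add_left_cancel a8, Nat.add_sub_cancel_left]
  have h3 : ∀ (f : F[X]) (a j : ℕ), f.natDegree < Nat.card F ^ a →
      P (t ^ Nat.card F ^ a) (t ^ Nat.card F ^ (a + j)) (φ f) (φ f ^ Nat.card F ^ j) := by
    intro f a j h
    have b1 : f.degree < (X ^ Nat.card F ^ a : F[X]).degree :=
      degree_lt_degree (by rwa [natDegree_X_pow])
    have b2 : (X ^ Nat.card F ^ a + f).natDegree = Nat.card F ^ a := by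
      rw [natDegree_eq_of_degree_eq (degree_add_eq_left_of_degree_lt b1), natDegree_X_pow]
    obtain ⟨b3, b4, b5⟩ := U_deg ((monic_X_pow _).add_of_left b1) (by omega) (Nat.card F ^ j)
    rw [b2, mul_comm, ← pow_add] at b4
    have b6 := degree_sub_lt_left (q := X ^ Nat.card F ^ (a + j)) (by
      rw [degree_eq_natDegree b3.ne_zero, b4, degree_X_pow]) b3.ne_zero (by simp [b3.leadingCoeff])
    rw [degree_eq_natDegree b3.ne_zero, b4, ← degree_X_pow (R := F)] at b6
    have e : ∀ n, φ (U (X ^ Nat.card F ^ a + f) n) = U (t ^ Nat.card F ^ a + φ f) n := fun n => by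
      rw [map_U, map_add, map_pow, ht]
    refine ⟨_, _, M.oP _, M.oP _, M.oP _, by simpa only [map_pow, ht] using M.lP _ _ b1,
      M.lP _ _ b5, by simpa only [map_pow, ht, map_sub] using M.lP _ _ b6, ?_, ?_⟩
    · rw [e, e, U_pell]
    · rw [e, e, U_frob φ, S.frob, ← pow_mul, ← pow_add, add_comm]
  refine ⟨fun T x h => ∃ T₁ T₂, (∃ n, T₁ = t ^ Nat.card F ^ n) ∧ (∃ n, T₂ = t ^ Nat.card F ^ n) ∧
    P T₁ T₂ x h ∧ P T₁ T₂ t T, ?_, ?_, fun f n => ?_⟩
  · refine .ex (.ex (.and (hD'.comp ?_) (.and (hD'.comp ?_)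
      (.and (h1.app4 ?_ ?_ ?_ ?_) (h1.app4 ?_ ?_ ?_ ?_)))))
      <;> fun_prop
  · rintro T x h ⟨_, _, ⟨a, rfl⟩, ⟨c, rfl⟩, a1, a2⟩
    exact ⟨_, h2 _ _ _ _ a2, h2 _ _ _ _ a1⟩
  · have := Nat.lt_pow_self (n := f.natDegree + 1) hq
    exact ⟨_, _, ⟨_, rfl⟩, ⟨_, rfl⟩, h3 f (f.natDegree + 1) n (by omega),
      ht ▸ h3 X (f.natDegree + 1) n (by rw [natDegree_X]; omega)⟩

end Pool.Agent.G2W
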