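import Pool.Agent.MP_a59382_lc.G2.Z2
import Pool.Agent.MP_a59382_lc.G2.POW
import Pool.Agent.MP_a59382_lc.G2.EXT

/-! Descent from perfect constants to an arbitrary constant field, for all function fields. -/

namespace Pool.Agent.G2W

open Pool.Agent.MP_a59382_lc Pool.Agent.MP_a59382_lc.H11 Polynomial IsDedekindDomain WithZero
open Pool.Agent.MP_a59382_lc.H18 (In Sm Kit)
open Pool.Agent.G2F (LEV_s TWO_s EXT_s)
open scoped WithZero

theorem as_up {K K' : Type} [Field K] [Field K'] (e : K →+* K') {Q : ℕ} {a : K} (h : AS Q a) :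
    AS Q (e a) := by
  obtain ⟨u, rfl⟩ := h
  exact ⟨e u, by rw [map_sub, map_pow]⟩

theorem down {K K' : Type} [Field K] [Field K'] (e : K →+* K') {q : ℕ} {t : K} {ι : Type}
    {val : ι → Valuation K' ℤᵐ⁰} (S : G2F.Sz q (e t) val) :
    Sy q t fun i => (val i).comap e := by
  refine ⟨S.two_le, fun k x y => e.injective ?_, fun y hy => ?_, fun Q k hQ c hc => ?_,
    fun Q k hQ => ?_, fun A hA => ?_, S.zer, S.pol, ?_⟩
  · rw [map_pow, map_add, map_add, map_pow, map_pow, S.frob]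
  · exact S.supp (e y) ((map_ne_zero e).2 hy)
  · have h := S.indep Q k hQ (fun d => e (c d)) (by rw [← cs_map, hc, map_zero])
    funext d
    exact e.injective ((congrFun h d).trans (map_zero e).symm)
  · obtain ⟨γ, hγ, h⟩ := S.comp Q k hQ
    refine ⟨γ, hγ, fun i m c hc d => h i m (fun d => e (c d)) ?_ d⟩
    rw [← cs_map]
    exact hc
  · obtain ⟨B, hB⟩ := S.low A hA
    exact ⟨B, fun g hg h0 i => hB (e g) hg ((map_ne_zero e).2 h0) i⟩
  · obtain ⟨r, hr, h⟩ := S.phi_iff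
    refine ⟨r, hr, fun k hk hrk j hj x hx => ?_⟩
    obtain ⟨h0, h1, h2⟩ := hx
    have h3 := as_up e h1
    have h4 := as_up e h2
    rw [map_sub, map_pow] at h3
    rw [map_sub, map_inv₀, map_inv₀, map_pow] at h4
    obtain ⟨n, hn, e1⟩ := (h k hk hrk j hj (e x)).1 ⟨(map_ne_zero e).2 h0, h3, h4⟩
    exact ⟨n, hn, e.injective (by rw [e1, map_pow])⟩

theorem rng_dvd {F K : Type} [Field F] [Finite F] [Field K] (φ : F[X] →+* K) (a : F[X]) (n : ℕ) :
    ∃ s, φ a ^ Nat.card F ^ n - φ a = φ s * (φ X ^ Nat.card F ^ n - φ X) := by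
  obtain ⟨s, hs⟩ := H18.dvd_expand_sub (Nat.card F ^ n) a
  rw [← H18.pow_eq_expand] at hs
  exact ⟨s, by simpa [mul_comm] using congrArg φ hs⟩

theorem rng_up {K ι : Type} [Field K] {val : ι → Valuation K ℤᵐ⁰} {t y : K} {q n : ℕ}
    (hq : 2 ≤ q) (h : Sm val t y (t ^ q ^ n)) : Sm val t y (t ^ q ^ (n + 1)) := by
  intro i hi
  refine (h i hi).trans_le ?_
  rw [map_pow, map_pow]
  exact pow_le_pow_right₀ hi.le (Nat.pow_le_pow_right (by omega) (by omega))

theorem rng (hL : LEV_s) (hT : TWO_s) {F K K' : Type} [Field F] [Finite F] [Field K] [Field K']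
    (φ : F[X] →+* K) (g : K →+* K') {t : K} {ι : Type} {val : ι → Valuation K' ℤᵐ⁰}
    (S' : G2F.Sz (Nat.card F) (g t) val) (ht : φ X = t) :
    H18.Dio K fun x : K => x ∈ φ.range := by
  have S := down g S'
  obtain ⟨O, L, M⟩ := ex_kit S ht
  obtain ⟨Φ, hΦ, f1, f2⟩ := ex_fr S ht M
  obtain ⟨c, hc⟩ := hL K' _ (g t) ι val S'
  have hT' := hT F K' (g.comp φ) (g t) ι val S' (by rw [RingHom.comp_apply, ht])
  have hd := rng_dvd φ
  rw [ht] at hd
  have hq := S.two_le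
  generalize Nat.card F = q at f1 f2 hc hT' hd hq
  have : H18.Dio K fun x : K => ∃ T h s s', Φ T x h ∧ O x ∧ O s ∧ O s' ∧
      L ((x * t) ^ q ^ c) T ∧ L (t ^ q ^ c) T ∧ h - x = s * (T - t) ∧
        h ^ q - x = s' * (T ^ q - t) := by
    refine .ex (.ex (.ex (.ex (.and (hΦ.app3 ?_ ?_ ?_) (.and (M.dO.comp ?_) (.and (M.dO.comp ?_)
      (.and (M.dO.comp ?_) (.and (M.dL.app2 ?_ ?_) (.and (M.dL.app2 ?_ ?_)
        (.and (.eq ?_ ?_) (.eq ?_ ?_)))))))))))
      <;> fun_prop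
  refine this.congr fun x => ⟨?_, ?_⟩
  · rintro ⟨a, rfl⟩
    obtain ⟨n, h2⟩ : ∃ n, q ^ c * (a.natDegree + 1) < q ^ n := ⟨_, Nat.lt_pow_self hq⟩
    obtain ⟨s, hs⟩ := hd a n
    obtain ⟨s', hs'⟩ := hd a (n + 1)
    have h3 : ∀ b : F[X], b.natDegree ≤ a.natDegree + 1 →
        L (φ b ^ q ^ c) (t ^ q ^ n) := fun b hb => by
      rw [← ht, ← map_pow, ← map_pow]
      refine M.lP _ _ (degree_lt_degree ?_)
      rw [natDegree_pow, natDegree_X_pow]
      exact (Nat.mul_le_mul_left _ hb).trans_lt h2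
    refine ⟨_, _, φ s, φ s', f2 a n, M.oP _, M.oP _, M.oP _, ?_, ?_, hs, ?_⟩
    · simpa [ht] using h3 (a * X) (natDegree_mul_le.trans (by simp))
    · simpa [ht] using h3 X (by simp)
    · rw [← pow_mul, ← pow_mul, ← pow_succ]
      exact hs'
  · rintro ⟨T, h, s, s', a1, a2, a3, a4, a5, a6, a7, a8⟩
    obtain ⟨n, rfl, rfl⟩ := f1 _ _ _ a1
    rw [← pow_mul, ← pow_mul, ← pow_succ] at a8
    have b2 : In val (g t) (g x) := M.oI _ a2
    have b3 : In val (g t) (g s) := M.oI _ a3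
    have b4 : In val (g t) (g s') := M.oI _ a4
    have b5 : Sm val (g t) (g ((x * t) ^ q ^ c)) (g (t ^ q ^ n)) := M.lS _ _ a5
    have b6 : Sm val (g t) (g (t ^ q ^ c)) (g (t ^ q ^ n)) := M.lS _ _ a6
    have b7 := congrArg g a7
    have b8 := congrArg g a8
    simp only [map_pow, map_mul, map_sub] at b5 b6 b7 b8
    obtain ⟨J, _, e, w, e1, e2, e3, e4⟩ := hc n (g x) (g s) b2 b3 b7 b5 b6
    obtain ⟨J', _, e', w', e1', e2', e3', e4'⟩ :=
      hc (n + 1) (g x) (g s') b2 b4 b8 (rng_up hq b5) (rng_up hq b6)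
    have := hT' n J J' e e' w w' e1 e1' e2 e2' e3 e3' (e4.symm.trans e4')
    rw [← e4] at this
    obtain ⟨a, ha⟩ := this
    exact ⟨a, g.injective ha⟩

theorem top_of (hE : EXT_s) (hL : LEV_s) (hT : TWO_s) (p : ℕ) (k K : Type) [Field k]
    [Fact p.Prime] [CharP k p] [Field K] [Algebra k[X] K] [Algebra (RatFunc k) K]
    [IsScalarTower k[X] (RatFunc k) K] [FunctionField k K] [Algebra.IsSeparable (RatFunc k) K]
    (S : ℕ → Prop) (hre : REPred S) : ∃ (n : ℕ) (f : MvPolynomial (Fin 1 ⊕ Fin n) K),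
      ∀ a : K, (∃ z : Fin n → K, MvPolynomial.eval (Sum.elim ![a] z) f = 0) ↔
        ∃ j, S j ∧ a = algebraMap k[X] K X ^ j := by
  obtain ⟨K', _, ι, val, g, S0⟩ := hE p k K
  let φ : (ZMod p)[X] →+* K :=
    (algebraMap k[X] K).comp (mapRingHom (ZMod.castHom (dvd_refl p) k))
  have ht : φ X = algebraMap k[X] K X := by simp [φ]
  have hc : Nat.card (ZMod p) = p := Nat.card_zmod p
  have S1 : G2F.Sz (Nat.card (ZMod p)) (g (algebraMap k[X] K X)) val := by rwa [hc]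
  have S2 := down g S1
  have h1 := (H18.base (ZMod p)).re (σ := Fin 1) (π := fun _ (j : ℕ) => j) hre
    fun _ => Computable.id
  obtain ⟨n, f, hf⟩ := H18.Dio.out S2.aniso
    (H18.Dio.up φ (phi_inj S2 ht) (rng hL hT φ g S1 ht) h1)
  refine ⟨n, f, fun a => (hf ![a]).trans ⟨?_, ?_⟩⟩
  · rintro ⟨v, hv, j, hj, e⟩
    refine ⟨j, hj, ?_⟩
    have := hv 0
    rw [e 0, map_pow, ht] at this
    exact this
  · rintro ⟨j, hj, rfl⟩
    refine ⟨fun _ => X ^ j, fun s => ?_, j, hj, fun _ => rfl⟩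
    rw [map_pow, ht, Subsingleton.elim s 0]
    rfl

end Pool.Agent.G2W
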