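import Pool.Agent.MP_a59382_lc.G2.Defs

namespace Pool.Agent.G2F

open Pool.Agent.MP_a59382_lc Pool.Agent.MP_a59382_lc.H11 Polynomial IsDedekindDomain WithZero
open Pool.Agent.MP_a59382_lc.H18 (In Sm Kit)
open scoped WithZero

/-- A prime above a nonzero prime containing `a`. -/
theorem zp_over {R O : Type} [CommRing R] [IsDomain R] [CommRing O] [IsDedekindDomain O]
    [Algebra R O] [Algebra.IsIntegral R O] (hinj : Function.Injective (algebraMap R O))
    (P : Ideal R) (hP : P.IsPrime) (h0 : P ≠ ⊥) :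
    ∃ v : HeightOneSpectrum O, ∀ a ∈ P, algebraMap R O a ∈ v.asIdeal := by
  obtain ⟨Q, -, hQ, e⟩ := Ideal.exists_ideal_over_prime_of_isIntegral P (⊥ : Ideal O) (by
    intro a ha
    have : a = 0 := hinj (by rw [map_zero]; exact (Ideal.mem_bot).1 (Ideal.mem_comap.1 ha))
    rw [this]
    exact P.zero_mem)
  refine ⟨⟨Q, hQ, ?_⟩, fun a ha => ?_⟩
  · rintro rfl
    apply h0
    rw [← e, eq_bot_iff]
    intro a ha
    exact (Ideal.mem_bot).2 (hinj (by rw [map_zero]; exact (Ideal.mem_bot).1 (Ideal.mem_comap.1 ha)))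
  · rw [← e] at ha
    exact Ideal.mem_comap.1 ha

theorem zp_row : ZP_s := by
  intro p k K _ _ _ _ _ _ _ _ _ _ _ _
  constructor
  · obtain ⟨v, hv⟩ := zp_over (R := k[X]) (O := FunctionField.ringOfIntegers k K)
      (FunctionField.ringOfIntegers.algebraMap_injective k K) (Ideal.span {X})
      ((Ideal.span_singleton_prime X_ne_zero).2 prime_X)
      (by rw [Ne, Ideal.span_singleton_eq_bot]; exact X_ne_zero)
    exact ⟨Sum.inl v, (val_lt_one (K := K) v _).2 (hv X (Ideal.mem_span_singleton_self X))⟩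
  · have := rinf_dvr k
    have hinj : Function.Injective (algebraMap (Rinf k) (Oinf k K)) := by
      intro a b h
      have h1 : algebraMap (RatFunc k) K a.1 = algebraMap (RatFunc k) K b.1 :=
        congrArg Subtype.val h
      exact Subtype.ext ((algebraMap (RatFunc k) K).injective h1)
    obtain ⟨v, -⟩ := zp_over (R := Rinf k) (O := Oinf k K) hinj
      (IsLocalRing.maximalIdeal (Rinf k)) inferInstance (IsDiscreteValuationRing.not_a_field _)
    refine ⟨Sum.inr v, ?_⟩
    have h1 := inf_pole k K v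
    rw [map_inv₀, map_inv₀, map_X] at h1
    have h0 : v.valuation K (algebraMap k[X] K X) ≠ 0 := (Valuation.ne_zero_iff _).2 fun h =>
      X_ne_zero (FunctionField.algebraMap_injective k K (by rw [h, map_zero]))
    exact (inv_lt_one₀ (zero_lt_iff.2 h0)).1 h1

end Pool.Agent.G2F
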