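import Pool.Agent.MP_a59382_lc.G2.Z3
import Pool.Agent.MP_a59382_lc.G2.CMP
import Pool.Agent.MP_a59382_lc.G2.CST
import Pool.Agent.MP_a59382_lc.G2.NRM
import Pool.Agent.MP_a59382_lc.G2.ZP
import Pool.Agent.MP_a59382_lc.G2.LOW
import Pool.Agent.MP_a59382_lc.G2.SYS
import Pool.Agent.MP_a59382_lc.G2.LEV
import Pool.Agent.MP_a59382_lc.G2.TWO
import Pool.Agent.MP_a59382_lc.P55.SPAN
import Pool.Agent.MP_a59382_lc.I87.INS

/-! Assembly: all finite extensions of `k(t)`, `k` any field of characteristic `p`. -/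

namespace Pool.Agent.G2W

open Pool.Agent.MP_a59382_lc Pool.Agent.MP_a59382_lc.H11 Polynomial IsDedekindDomain WithZero
open Pool.Agent.G2F (LEV_s TWO_s)
open scoped WithZero

theorem emb_row (hL : LEV_s) (hT : TWO_s) : I87.EMB_s := by
  intro p _ K K' _ _ _ t g ι val S0 S hre
  let φ : (ZMod p)[X] →+* K := eval₂RingHom (ZMod.castHom (dvd_refl p) K) t
  have ht : φ X = t := by simp [φ]
  have hc : Nat.card (ZMod p) = p := Nat.card_zmod p
  have S1 : G2F.Sz (Nat.card (ZMod p)) (g t) val := by rwa [hc]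
  have S2 := down g S1
  have h1 := (H18.base (ZMod p)).re (σ := Fin 1) (π := fun _ (j : ℕ) => j) hre
    fun _ => Computable.id
  obtain ⟨n, f, hf⟩ := H18.Dio.out S2.aniso
    (H18.Dio.up φ (phi_inj S2 ht) (rng hL hT φ g S1 ht) h1)
  refine ⟨n, f, fun a => (hf ![a]).trans ⟨?_, ?_⟩⟩
  · rintro ⟨v, hv, j, hj, e⟩
    refine ⟨j, hj, ?_⟩
    have := hv 0
    rw [e 0, map_pow, ht] at this
    exact this
  · rintro ⟨j, hj, rfl⟩
    refine ⟨fun _ => X ^ j, fun s => ?_, j, hj, fun _ => rfl⟩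
    rw [map_pow, ht, Subsingleton.elim s 0]
    rfl

theorem sys_all : G2F.SYS_s :=
  G2F.sys_row (G2F.cmp_row P55.SPAN_row) (G2F.low_row (G2F.cmp_row P55.SPAN_row) G2F.nrm_row)
    G2F.cst_row G2F.zp_row

theorem ext_all : I87.EXT_s := by
  intro p k K _ _ _ _ _ _ _ _ _
  obtain ⟨K', h, ι, val, f, hS⟩ := G2F.ext_row sys_all p k K
  exact ⟨K', h, f, ι, val, hS⟩

theorem all_row : I87.ALL_s := I87.ins_row (emb_row G2F.lev_row G2F.two_row) ext_all

end Pool.Agent.G2W
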